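import Pool.Agent.H66.FR.MainM

/-!
# The block theorem with multiplicities, in terms of matrices
-/

set_option autoImplicit false

namespace Pool.Agent.H66.FR

open NumberField Module Polynomial Pool.Agent.H46 Pool.Agent.H46.Blk

variable {d m : ℕ}

/-- The rational matrix with integer entries `B`. -/
abbrev qm (B : Matrix (Fin d) (Fin d) ℤ) : Matrix (Fin d) (Fin d) ℚ := B.map (Int.cast : ℤ → ℚ)

/-- The real matrix with integer entries `B`. -/
abbrev rm (B : Matrix (Fin d) (Fin d) ℤ) : Matrix (Fin d) (Fin d) ℝ := B.map (Int.cast : ℤ → ℝ)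

theorem field_of_minpoly (M : Matrix (Fin d) (Fin d) ℚ) (hM : Irreducible (minpoly ℚ M)) :
    ∃ (K : Type) (_ : Field K) (_ : NumberField K) (Ψ : K →ₐ[ℚ] Matrix (Fin d) (Fin d) ℚ) (θ : K),
      finrank ℚ K = (minpoly ℚ M).natDegree ∧ Ψ θ = M ∧ (∀ x : K, ∃ p : ℚ[X], aeval θ p = x) := by
  classical
  have hfact : Fact (Irreducible (minpoly ℚ M)) := ⟨hM⟩
  let K := AdjoinRoot (minpoly ℚ M)
  let pb : PowerBasis ℚ K := AdjoinRoot.powerBasis hM.ne_zero
  have hfin : FiniteDimensional ℚ K := pb.finite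
  have hnf : NumberField K := { to_charZero := charZero_of_injective_algebraMap
                                  (algebraMap ℚ K).injective
                                to_finiteDimensional := hfin }
  let f : ℚ[X] →ₐ[ℚ] Matrix (Fin d) (Fin d) ℚ := aeval M
  have hf : ∀ p : ℚ[X], p ∈ Ideal.span {minpoly ℚ M} → f p = 0 := by
    intro p hp
    rw [Ideal.mem_span_singleton] at hp
    obtain ⟨q, rfl⟩ := hp
    rw [map_mul]
    have : f (minpoly ℚ M) = 0 := minpoly.aeval ℚ M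
    rw [this, zero_mul]
  let Ψ : K →ₐ[ℚ] Matrix (Fin d) (Fin d) ℚ := Ideal.Quotient.liftₐ (Ideal.span {minpoly ℚ M}) f hf
  refine ⟨K, inferInstance, hnf, Ψ, AdjoinRoot.root (minpoly ℚ M), ?_, ?_, ?_⟩
  · rw [pb.finrank]
    simp only [pb, AdjoinRoot.powerBasis_dim]
  · have h1 : Ψ (AdjoinRoot.root (minpoly ℚ M)) = f X := rfl
    rw [h1]
    simp [f]
  · intro x
    obtain ⟨p, hp⟩ := AdjoinRoot.mk_surjective x
    refine ⟨p, ?_⟩
    rw [← hp]
    exact AdjoinRoot.aeval_eq p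

theorem injective_of_natDegree {K : Type*} [Field K] [NumberField K] (w : K)
    (h : (minpoly ℚ w).natDegree = finrank ℚ K) :
    Function.Injective (fun σ : K →+* ℂ => σ w) := by
  have hint : IsIntegral ℚ w := Algebra.IsIntegral.isIntegral w
  have htop : IntermediateField.adjoin ℚ {w} = ⊤ := by
    apply IntermediateField.eq_of_le_of_finrank_eq le_top
    rw [IntermediateField.adjoin.finrank hint, h, IntermediateField.finrank_top']
  intro σ τ hστ
  have h1 : σ.toRatAlgHom = τ.toRatAlgHom :=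
    (Field.primitive_element_iff_algHom_eq_of_eval ℚ ℂ (fun x => IsAlgClosed.splits _) w
      σ.toRatAlgHom).mp htop τ.toRatAlgHom hστ
  exact RingHom.ext fun x => AlgHom.congr_fun h1 x

theorem qm_aeval (B : Matrix (Fin d) (Fin d) ℤ) (p : ℤ[X]) :
    qm (aeval B p) = aeval (qm B) (p.map (Int.castRingHom ℚ)) := by
  have h1 : ∀ M : Matrix (Fin d) (Fin d) ℤ, qm M = (Int.castRingHom ℚ).mapMatrix M := fun M => rfl
  rw [h1, h1]
  induction p using Polynomial.induction_on with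
  | C r =>
    rw [aeval_C, Polynomial.map_C, aeval_C]
    ext i j
    simp
  | add p q hp hq => rw [map_add, map_add, hp, hq, Polynomial.map_add, map_add]
  | monomial n r ih =>
    have h2 : (C r * X ^ (n + 1) : ℤ[X]) = (C r * X ^ n) * X := by rw [pow_succ, mul_assoc]
    rw [h2]
    generalize (C r * X ^ n : ℤ[X]) = t at ih
    rw [map_mul, map_mul, ih, Polynomial.map_mul, map_mul, aeval_X, Polynomial.map_X, aeval_X]

theorem rm_eq (B : Matrix (Fin d) (Fin d) ℤ) : rm B = (qm B).map (Rat.cast : ℚ → ℝ) := by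
  ext i j
  simp

theorem aeval_conj (q : ℝ[X]) (z : ℂ) : aeval ((starRingEnd ℂ) z) q = (starRingEnd ℂ) (aeval z q) := by
  induction q using Polynomial.induction_on with
  | C r => simp
  | add p q hp hq => rw [map_add, map_add, hp, hq, map_add]
  | monomial n r ih =>
    have h2 : (C r * X ^ (n + 1) : ℝ[X]) = (C r * X ^ n) * X := by rw [pow_succ, mul_assoc]
    rw [h2]
    generalize (C r * X ^ n : ℝ[X]) = t at ih
    rw [map_mul, map_mul, map_mul, ih, aeval_X, aeval_X]

theorem eigen_row {K : Type*} [Field K] [NumberField K] {Ψ : K →ₐ[ℚ] Matrix (Fin d) (Fin d) ℚ}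
    {w : Fin m → Fin d → ℚ} (hw : IsKBasis Ψ w) {v : Fin d → ℝ} {σ : K →+* ℂ}
    (hσr : ComplexEmbedding.conjugate σ = σ) (hσ : ∀ k φ, φ ≠ σ → cf Ψ (w k) v φ = 0) (y : K) :
    Matrix.vecMul v ((Ψ y).map (Rat.cast : ℚ → ℝ)) = (σ y).re • v := by
  have him : ((σ y).re : ℂ) = σ y := by
    have h1 : (starRingEnd ℂ) (σ y) = σ y := by
      rw [← ComplexEmbedding.conjugate_coe_eq, hσr]
    exact Complex.conj_eq_iff_re.mp h1
  have h1 : Matrix.vecMul v ((Ψ y).map (Rat.cast : ℚ → ℝ)) + (-(σ y).re) • v = 0 := by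
    apply cf_injective hw
    intro k
    rw [cf_add, cf_smul, cf_vecMul]
    funext φ
    rw [Pi.add_apply, Pi.mul_apply, Pi.smul_apply, Pi.zero_apply, smul_eq_mul]
    by_cases hφ : φ = σ
    · subst hφ
      push_cast
      rw [him]
      ring
    · rw [hσ k φ hφ]
      ring
  rw [neg_smul, ← sub_eq_add_neg] at h1
  exact sub_eq_zero.mp h1

/-- The block theorem, with the field and the embeddings made explicit. -/
theorem block_core (g : Matrix (Fin d) (Fin d) ℝ) (hg : g.det ≠ 0) (B : Matrix (Fin d) (Fin d) ℤ)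
    (hB : Irreducible (minpoly ℚ (qm B))) (he : 3 ≤ (minpoly ℚ (qm B)).natDegree)
    (I : Finset (Fin d)) (hI0 : I.Nonempty) (hI1 : I ≠ Finset.univ) (q : ℝ[X])
    (hq : ∀ v : Fin d → ℝ, v ∈ Submodule.span ℝ (g '' (I : Set (Fin d))) ↔
      Matrix.vecMul v (aeval (rm B) q) = 0)
    (hprim : ∀ (p : ℤ[X]) (q' : ℝ[X]),
      (∀ v : Fin d → ℝ, v ∈ Submodule.span ℝ (g '' (I : Set (Fin d))) ↔
        Matrix.vecMul v (aeval (rm (aeval B p)) q') = 0) →
      (minpoly ℚ (qm (aeval B p))).natDegree = (minpoly ℚ (qm B)).natDegree)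
    (ε : ℝ) (hε : 0 < ε) (hlow : ∀ x : Fin d → ℤ, x ≠ 0 → ε ≤ |∏ i, ∑ j, g i j * (x j : ℝ)|) :
    ∃ (K : Type) (_ : Field K) (_ : NumberField K) (Ψ : K →ₐ[ℚ] Matrix (Fin d) (Fin d) ℚ) (θ : K)
      (m : ℕ) (w : Fin m → Fin d → ℚ) (σ : Fin d → (K →+* ℂ)), IsKBasis Ψ w ∧
      finrank ℚ K = (minpoly ℚ (qm B)).natDegree ∧ Ψ θ = qm B ∧
      (∀ x : K, ∃ p : ℚ[X], aeval θ p = x) ∧
      (∀ i, ComplexEmbedding.conjugate (σ i) = σ i) ∧
      ∀ i k φ, φ ≠ σ i → cf Ψ (w k) (g i) φ = 0 := by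
  classical
  obtain ⟨K, _, _, Ψ, θ, hK, hΨ, hθ⟩ := field_of_minpoly (qm B) hB
  obtain ⟨m, w, hw⟩ := exists_kbasis Ψ
  have hcast : rm B = (Ψ θ).map (Rat.cast : ℚ → ℝ) := by rw [hΨ, rm_eq]
  -- a vanishing criterion
  have hcrit : ∀ (y : K) (r : ℝ[X]) (v : Fin d → ℝ),
      Matrix.vecMul v (aeval ((Ψ y).map (Rat.cast : ℚ → ℝ)) r) = 0 ↔
        ∀ k (σ : K →+* ℂ), aeval (σ y) r ≠ 0 → cf Ψ (w k) v σ = 0 := by
    intro y r v
    constructor
    · intro h k σ hσ
      have h1 := cf_aeval Ψ (w k) y r v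
      rw [h, cf_zero] at h1
      have h2 := congr_fun h1 σ
      rw [Pi.zero_apply, Pi.mul_apply] at h2
      exact (mul_eq_zero.mp h2.symm).resolve_left hσ
    · intro h
      apply cf_injective hw
      intro k
      rw [cf_aeval]
      funext σ
      rw [Pi.mul_apply, Pi.zero_apply]
      by_cases hσ : aeval (σ y) r = 0
      · rw [hσ, zero_mul]
      · rw [h k σ hσ, mul_zero]
  set S : Finset (K →+* ℂ) := Finset.univ.filter fun σ => aeval (σ θ) q = 0 with hS
  have hmemS : ∀ σ : K →+* ℂ, σ ∈ S ↔ aeval (σ θ) q = 0 := by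
    intro σ
    simp [hS]
  have hSc : ∀ σ, σ ∈ S ↔ ComplexEmbedding.conjugate σ ∈ S := by
    intro σ
    rw [hmemS, hmemS, ComplexEmbedding.conjugate_coe_eq, aeval_conj]
    exact (map_eq_zero _).symm
  have hspan : ∀ v : Fin d → ℝ, v ∈ Submodule.span ℝ (g '' (I : Set (Fin d))) ↔
      ∀ k σ, σ ∉ S → cf Ψ (w k) v σ = 0 := by
    intro v
    rw [hq, hcast, hcrit]
    simp only [hmemS]
  have hprimS : Prim S := by
    intro u hu
    obtain ⟨p, hp⟩ := hθ u
    -- clear denominators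
    obtain ⟨N, hN0, hN⟩ : ∃ N : ℤ, N ≠ 0 ∧ ∃ p' : ℤ[X], p'.map (Int.castRingHom ℚ) = C (N : ℚ) * p := by
      obtain ⟨b, hbm, hb⟩ := IsLocalization.integerNormalization_spec (nonZeroDivisors ℤ) p
      refine ⟨b, nonZeroDivisors.ne_zero hbm,
        IsLocalization.integerNormalization (nonZeroDivisors ℤ) p, ?_⟩
      have hb' : (IsLocalization.integerNormalization (nonZeroDivisors ℤ) p).map
          (algebraMap ℤ ℚ) = b • p := hb
      have h3 : (Int.castRingHom ℚ) = algebraMap ℤ ℚ := rfl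
      rw [h3, hb']
      ext n
      rw [coeff_smul, coeff_C_mul, zsmul_eq_mul]
    obtain ⟨p', hp'⟩ := hN
    have hNQ : (N : ℚ) ≠ 0 := by exact_mod_cast hN0
    set c : K := (N : ℚ) • u with hc
    have hcp : aeval θ (p'.map (Int.castRingHom ℚ)) = c := by
      rw [hp', map_mul, hp, aeval_C, hc, Algebra.smul_def]
    have hΨc : qm (aeval B p') = Ψ c := by
      rw [qm_aeval, ← hΨ, aeval_algHom_apply, hcp]
    have hφc : ∀ φ : K →+* ℂ, φ c = (N : ℂ) * φ u := by
      intro φ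
      rw [hc, Rat.smul_def, map_mul]
      simp
    have hNC : (N : ℂ) ≠ 0 := by exact_mod_cast hN0
    have hiff : ∀ φ ψ : K →+* ℂ, φ c = ψ c ↔ φ u = ψ u := by
      intro φ ψ
      rw [hφc, hφc]
      constructor
      · intro h
        exact mul_left_cancel₀ hNC h
      · intro h
        rw [h]
    let r : ℝ[X] := ∏ σ ∈ S, (X ^ 2 - C (2 * (σ c).re) * X + C (Complex.normSq (σ c)))
    have hr : ∀ φ : K →+* ℂ, aeval (φ c) r = 0 ↔ φ ∈ S := by
      intro φ
      have h1 : aeval (φ c) r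
          = ∏ σ ∈ S, ((φ c - σ c) * (φ c - (ComplexEmbedding.conjugate σ) c)) := by
        simp only [r, map_prod]
        apply Finset.prod_congr rfl
        intro σ _
        rw [map_add, map_sub, map_mul, map_pow, aeval_X, aeval_C, aeval_C,
          ComplexEmbedding.conjugate_coe_eq]
        have h2 : (algebraMap ℝ ℂ) (2 * (σ c).re) = σ c + (starRingEnd ℂ) (σ c) := by
          rw [Complex.add_conj]
          rfl
        have h3 : (algebraMap ℝ ℂ) (Complex.normSq (σ c)) = σ c * (starRingEnd ℂ) (σ c) := by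
          rw [Complex.mul_conj]
          rfl
        rw [h2, h3]
        ring
      rw [h1, Finset.prod_eq_zero_iff]
      constructor
      · rintro ⟨σ, hσ, h⟩
        rcases mul_eq_zero.mp h with h | h
        · exact hu σ φ ((hiff σ φ).mp (sub_eq_zero.mp h).symm) hσ
        · exact hu _ φ ((hiff _ φ).mp (sub_eq_zero.mp h).symm) ((hSc σ).mp hσ)
      · intro h
        exact ⟨φ, h, by simp⟩
    have hdeg := hprim p' r (by
      intro v
      rw [rm_eq, hΨc, hcrit, hspan]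
      simp only [ne_eq, hr])
    have : Nonempty (Fin d) := ⟨hI0.choose⟩
    rw [hΨc, ← hK, minpoly.algHom_eq Ψ Ψ.toRingHom.injective] at hdeg
    have hinj := injective_of_natDegree c hdeg
    intro φ ψ h
    exact hinj ((hiff φ ψ).mpr h)
  have hmain := main_m Ψ hw (by rw [hK]; exact he) g hg I hI0 hI1 S hSc hspan hprimS ε hε hlow
  choose σ hσ using hmain
  exact ⟨K, inferInstance, inferInstance, Ψ, θ, m, w, σ, hw, hK, hΨ, hθ, fun i => (hσ i).1,
    fun i => (hσ i).2⟩

end Pool.Agent.H66.FR
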