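import Pool.Agent.H66.FR.Engine

/-!
# From one block of forms to all forms (abstract counting argument)
-/

set_option autoImplicit false

namespace Pool.Agent.H66.FR

open NumberField Pool.Agent.H46 Pool.Agent.H46.Blk

variable {K : Type*} [Field K] [NumberField K]

/-- The property of a set of embeddings used in the unit argument: it is not a union of fibres of
the restriction to a proper subfield. -/
def Prim (S : Finset (K →+* ℂ)) : Prop :=
  ∀ u : K, (∀ φ ψ : K →+* ℂ, φ u = ψ u → φ ∈ S → ψ ∈ S) →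
      Function.Injective (fun φ : K →+* ℂ => φ u)

theorem purity_m {ι : Type*} [Fintype ι] [DecidableEq ι] (supp : ι → Finset (K →+* ℂ)) (m : ℕ)
    (hm : m ≠ 0) (hι : Fintype.card ι = m * Module.finrank ℚ K) (hd3 : 3 ≤ Module.finrank ℚ K)
    (hcardle : ∀ (J : Finset ι) (R : Finset (K →+* ℂ)), (∀ i ∈ J, supp i ⊆ R) →
      J.card ≤ m * R.card)
    (hconj : ∀ i σ, σ ∈ supp i → ComplexEmbedding.conjugate σ ∈ supp i)
    (E : ∀ (I : Finset ι) (S : Finset (K →+* ℂ)), I.card = m * S.card → S.Nonempty →
      S ≠ Finset.univ → Prim S → (∀ i ∈ I, supp i ⊆ S) →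
      (∀ σ, σ ∈ S ↔ ComplexEmbedding.conjugate σ ∈ S) →
      ∀ (i : ι) (σ τ : K →+* ℂ), (i ∈ I ↔ σ ∈ S) → (i ∈ I ↔ τ ∈ S) → σ ∈ supp i → τ ∈ supp i →
        σ = τ)
    (I : Finset ι) (S : Finset (K →+* ℂ)) (hcard : I.card = m * S.card) (hS0 : S.Nonempty)
    (hS1 : S ≠ Finset.univ) (hprim : Prim S) (hIS : ∀ i ∈ I, supp i ⊆ S)
    (hSc : ∀ σ, σ ∈ S ↔ ComplexEmbedding.conjugate σ ∈ S)
    (i : ι) (σ τ : K →+* ℂ) (hσ : σ ∈ supp i) (hτ : τ ∈ supp i) : σ = τ := by
  classical
  have E1 := E I S hcard hS0 hS1 hprim hIS hSc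
  have hne0 : ∀ k, (supp k).Nonempty := by
    intro k
    by_contra hcon
    rw [Finset.not_nonempty_iff_eq_empty] at hcon
    have h1 := hcardle {k} ∅ (by
      intro j hj
      rw [Finset.mem_singleton] at hj
      rw [hj, hcon])
    simp at h1
  by_contra hne
  have hiI : i ∉ I := by
    intro hi
    have h1 : σ ∈ S := hIS i hi hσ
    have h2 : τ ∈ S := hIS i hi hτ
    exact hne (E1 i σ τ (by simp [hi, h1]) (by simp [hi, h2]) hσ hτ)
  obtain ⟨τ', hτ'S, hτ'⟩ : ∃ τ' ∈ S, τ' ∈ supp i := by
    by_cases h1 : σ ∈ S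
    · exact ⟨σ, h1, hσ⟩
    · by_cases h2 : τ ∈ S
      · exact ⟨τ, h2, hτ⟩
      · exact absurd (E1 i σ τ (by simp [hiI, h1]) (by simp [hiI, h2]) hσ hτ) hne
  obtain ⟨σ', hσ'S, hσ'⟩ : ∃ σ', σ' ∉ S ∧ σ' ∈ supp i := by
    by_contra hcon
    push Not at hcon
    have h1 := hcardle (insert i I) S (by
      intro k hk
      rcases Finset.mem_insert.mp hk with rfl | hk
      · intro σ hσ
        by_contra h
        exact hcon σ h hσ
      · exact hIS k hk)
    rw [Finset.card_insert_of_notMem hiI, hcard] at h1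
    omega
  have hne' : σ' ≠ τ' := fun h => hσ'S (h ▸ hτ'S)
  have hcardE : (Finset.univ : Finset (K →+* ℂ)).card = Module.finrank ℚ K := by
    rw [Finset.card_univ, Embeddings.card K ℂ]
  by_cases hcase : ∃ ρ ∈ S, ρ ≠ τ'
  · obtain ⟨ρ, hρS, hρτ⟩ := hcase
    set Iρ := I.filter (fun k => supp k ⊆ {ρ}) with hIρ
    have h1 : Iρ.card ≤ m * 1 := by
      have := hcardle Iρ {ρ} (by
        intro k hk
        exact (Finset.mem_filter.mp hk).2)
      simpa using this
    have h2 : (I.filter (fun k => ¬ supp k ⊆ {ρ})).card ≤ m * (S.card - 1) := by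
      have := hcardle (I.filter (fun k => ¬ supp k ⊆ {ρ})) (S.erase ρ) (by
        intro k hk φ hφ
        obtain ⟨hkI, hk2⟩ := Finset.mem_filter.mp hk
        have hφS : φ ∈ S := hIS k hkI hφ
        rw [Finset.mem_erase]
        refine ⟨?_, hφS⟩
        rintro rfl
        apply hk2
        intro ψ hψ
        rw [Finset.mem_singleton]
        have hψS : ψ ∈ S := hIS k hkI hψ
        exact E1 k ψ φ (by simp [hkI, hψS]) (by simp [hkI, hφS]) hψ hφ)
      rwa [Finset.card_erase_of_mem hρS] at this
    have h3 : Iρ.card + (I.filter (fun k => ¬ supp k ⊆ {ρ})).card = I.card := by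
      rw [hIρ, Finset.card_filter_add_card_filter_not]
    have hSpos : 1 ≤ S.card := Finset.card_pos.mpr ⟨ρ, hρS⟩
    have h4 : Iρ.card = m * ({ρ} : Finset (K →+* ℂ)).card := by
      rw [Finset.card_singleton]
      apply le_antisymm h1
      rw [hcard] at h3
      have h5 : m * (S.card - 1) + m * 1 = m * S.card := by
        rw [← Nat.mul_add]
        congr 1
        omega
      omega
    obtain ⟨k, hk⟩ : Iρ.Nonempty := by
      rw [← Finset.card_pos, h4, Finset.card_singleton]
      omega
    obtain ⟨hkI, hkρ⟩ := Finset.mem_filter.mp hk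
    have hρreal : ComplexEmbedding.conjugate ρ = ρ := by
      obtain ⟨φ, hφ⟩ := hne0 k
      have h5 := hkρ hφ
      rw [Finset.mem_singleton] at h5
      subst h5
      have h6 := hkρ (hconj k φ hφ)
      rwa [Finset.mem_singleton] at h6
    have hρ1 : ({ρ} : Finset (K →+* ℂ)) ≠ Finset.univ := by
      intro h
      have h2 := congrArg Finset.card h
      rw [Finset.card_singleton, hcardE] at h2
      omega
    have hσρ : σ' ≠ ρ := fun h => hσ'S (h ▸ hρS)
    have hiρ : i ∉ Iρ := fun h => hiI (Finset.mem_filter.mp h).1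
    exact hne' (E Iρ {ρ} h4 (Finset.singleton_nonempty ρ) hρ1 (prim_of_coprime {ρ} (by simp))
      (fun j hj => (Finset.mem_filter.mp hj).2)
      (by
        intro φ
        simp only [Finset.mem_singleton]
        constructor
        · rintro rfl; exact hρreal
        · intro h
          rw [← ComplexEmbedding.involutive_conjugate K φ, h, hρreal])
      i σ' τ' (by simp [hiρ, hσρ]) (by simp [hiρ, hρτ.symm]) hσ' hτ')
  · push Not at hcase
    have hSτ : S = {τ'} := by
      ext φ
      rw [Finset.mem_singleton]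
      exact ⟨fun h => hcase φ h, fun h => h ▸ hτ'S⟩
    obtain ⟨ρ, hρ⟩ : ∃ ρ : K →+* ℂ, ρ ∉ ({τ', σ'} : Finset (K →+* ℂ)) := by
      by_contra hcon
      push Not at hcon
      have h1 : (Finset.univ : Finset (K →+* ℂ)) ⊆ {τ', σ'} := fun φ _ => hcon φ
      have h2 := Finset.card_le_card h1
      rw [hcardE] at h2
      have h3 : ({τ', σ'} : Finset (K →+* ℂ)).card ≤ 2 := Finset.card_le_two
      omega
    simp only [Finset.mem_insert, Finset.mem_singleton, not_or] at hρ
    obtain ⟨hρτ, hρσ⟩ := hρ
    have hρS : ρ ∉ S := by rw [hSτ, Finset.mem_singleton]; exact hρτ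
    set J := Finset.univ.filter (fun k : ι => ρ ∈ supp k) with hJ
    set I' := Finset.univ.filter (fun k : ι => ¬ ρ ∈ supp k) with hI'
    have hJI : ∀ k ∈ J, k ∉ I := by
      intro k hk hkI
      exact hρS (hIS k hkI (Finset.mem_filter.mp hk).2)
    have h1 : J.card + I.card ≤ m * (S.card + 1) := by
      have h2 := hcardle (J ∪ I) (insert ρ S) (by
        intro k hk φ hφ
        rw [Finset.mem_insert]
        rcases Finset.mem_union.mp hk with hk | hk
        · by_contra hcon
          rw [not_or] at hcon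
          have hkI := hJI k hk
          exact hcon.1 (E1 k φ ρ (by simp [hkI, hcon.2]) (by simp [hkI, hρS]) hφ
            (Finset.mem_filter.mp hk).2)
        · exact Or.inr (hIS k hk hφ))
      rw [Finset.card_union_of_disjoint (Finset.disjoint_left.mpr hJI),
        Finset.card_insert_of_notMem hρS] at h2
      exact h2
    have h2 : I'.card ≤ m * (Module.finrank ℚ K - 1) := by
      have h3 := hcardle I' (Finset.univ.erase ρ) (by
        intro k hk φ hφ
        rw [Finset.mem_erase]
        refine ⟨?_, Finset.mem_univ _⟩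
        rintro rfl
        exact (Finset.mem_filter.mp hk).2 hφ)
      rwa [Finset.card_erase_of_mem (Finset.mem_univ _), hcardE] at h3
    have h3 : J.card + I'.card = m * Module.finrank ℚ K := by
      rw [hJ, hI', Finset.card_filter_add_card_filter_not, Finset.card_univ, hι]
    have h5 : m * (Module.finrank ℚ K - 1) + m = m * Module.finrank ℚ K := by
      rw [← Nat.mul_succ]
      congr 1
      omega
    have h6 : m * (S.card + 1) = m * S.card + m := by rw [Nat.mul_add, mul_one]
    have h4 : I'.card = m * (Finset.univ.erase ρ).card := by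
      rw [Finset.card_erase_of_mem (Finset.mem_univ _), hcardE]
      apply le_antisymm h2
      rw [hcard] at h1
      omega
    obtain ⟨k, hk⟩ : J.Nonempty := by
      rw [← Finset.card_pos]
      omega
    have hkρ := (Finset.mem_filter.mp hk).2
    have hkI := hJI k hk
    have hρreal : ComplexEmbedding.conjugate ρ = ρ := by
      have h7 : ComplexEmbedding.conjugate ρ ∉ S := fun h => hρS ((hSc ρ).mpr h)
      exact E1 k _ ρ (by simp [hkI, h7]) (by simp [hkI, hρS]) (hconj k ρ hkρ) hkρ
    have hi' : i ∈ I' := by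
      rw [hI', Finset.mem_filter]
      refine ⟨Finset.mem_univ _, fun h => ?_⟩
      exact hρσ (E1 i ρ σ' (by simp [hiI, hρS]) (by simp [hiI, hσ'S]) h hσ')
    refine hne' (E I' (Finset.univ.erase ρ) h4 ⟨σ', by simp [Ne.symm hρσ]⟩ ?_ ?_ ?_ ?_ i σ' τ'
      (by simp [hi', Ne.symm hρσ]) (by simp [hi', Ne.symm hρτ]) hσ' hτ')
    · intro h
      have h2 : ρ ∈ Finset.univ.erase ρ := by rw [h]; exact Finset.mem_univ ρ
      exact Finset.notMem_erase ρ _ h2
    · apply prim_of_coprime
      rw [Finset.card_erase_of_mem (Finset.mem_univ _), hcardE]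
      have h1 : Module.finrank ℚ K = (Module.finrank ℚ K - 1) + 1 := by omega
      rw [h1, Nat.add_sub_cancel]
      exact (Nat.coprime_self_add_right).mpr (Nat.coprime_one_right _)
    · intro k hk φ hφ
      rw [Finset.mem_erase]
      refine ⟨?_, Finset.mem_univ _⟩
      rintro rfl
      exact (Finset.mem_filter.mp hk).2 hφ
    · intro φ
      simp only [Finset.mem_erase, Finset.mem_univ, and_true, ne_eq, not_iff_not]
      constructor
      · rintro rfl; exact hρreal
      · intro h
        rw [← ComplexEmbedding.involutive_conjugate K φ, h, hρreal]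

end Pool.Agent.H66.FR
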