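import Pool.Agent.H46.Coeff
import Pool.Agent.H66.FR.Purity

/-!
# Coefficients of real linear forms on a `K`-vector space
-/

set_option autoImplicit false

namespace Pool.Agent.H66.FR

open NumberField Module Polynomial Pool.Agent.H46 Pool.Agent.H46.Blk

variable {K : Type*} [Field K] [NumberField K] {d m : ℕ}

/-- `w` is a basis of `ℚ^d` over `K`, which acts through `Ψ`. -/
structure IsKBasis (Ψ : K →ₐ[ℚ] Matrix (Fin d) (Fin d) ℚ) (w : Fin m → Fin d → ℚ) : Prop where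
  dim : d = m * finrank ℚ K
  span : ∀ v : Fin d → ℚ, ∃ c : Fin m → K, ∑ k, (Ψ (c k)).mulVec (w k) = v
  indep : ∀ c : Fin m → K, ∑ k, (Ψ (c k)).mulVec (w k) = 0 → c = 0

theorem exists_kbasis (Ψ : K →ₐ[ℚ] Matrix (Fin d) (Fin d) ℚ) :
    ∃ (m : ℕ) (w : Fin m → Fin d → ℚ), IsKBasis Ψ w := by
  classical
  let f : K →+* Module.End ℚ (Fin d → ℚ) :=
    ((Matrix.toLinAlgEquiv' : Matrix (Fin d) (Fin d) ℚ ≃ₐ[ℚ] ((Fin d → ℚ) →ₗ[ℚ] (Fin d → ℚ))).toAlgHom.comp
      Ψ).toRingHom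
  let inst : Module K (Fin d → ℚ) := Module.compHom (Fin d → ℚ) f
  have hsmul : ∀ (x : K) (v : Fin d → ℚ), inst.smul x v = (Ψ x).mulVec v := fun x v => rfl
  have hsmul' : ∀ (x : K) (v : Fin d → ℚ), x • v = (Ψ x).mulVec v := fun x v => rfl
  have : IsScalarTower ℚ K (Fin d → ℚ) := by
    constructor
    intro q x v
    rw [hsmul', hsmul', map_smul, Matrix.smul_mulVec]
  have : Module.Finite K (Fin d → ℚ) := Module.Finite.of_restrictScalars_finite ℚ K (Fin d → ℚ)
  let b := Module.finBasis K (Fin d → ℚ)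
  refine ⟨finrank K (Fin d → ℚ), fun k => b k, ?_, ?_, ?_⟩
  · have h := Module.finrank_mul_finrank ℚ K (Fin d → ℚ)
    rw [Module.finrank_fintype_fun_eq_card, Fintype.card_fin] at h
    rw [mul_comm]
    exact h.symm
  · intro v
    refine ⟨fun k => b.repr v k, ?_⟩
    have := b.sum_repr v
    simpa only [hsmul'] using this
  · intro c hc
    have h1 : ∑ k, c k • b k = 0 := by
      simpa only [hsmul'] using hc
    have h2 := Fintype.linearIndependent_iff.mp b.linearIndependent c h1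
    funext k
    exact h2 k

/-- The linear map `x ↦ x u`. -/
def vecL (Ψ : K →ₐ[ℚ] Matrix (Fin d) (Fin d) ℚ) (u : Fin d → ℚ) : K →ₗ[ℚ] (Fin d → ℚ) where
  toFun x := (Ψ x).mulVec u
  map_add' x y := by rw [map_add, Matrix.add_mulVec]
  map_smul' q x := by rw [map_smul, Matrix.smul_mulVec, RingHom.id_apply]

theorem vecL_apply (Ψ : K →ₐ[ℚ] Matrix (Fin d) (Fin d) ℚ) (u : Fin d → ℚ) (x : K) :
    vecL Ψ u x = (Ψ x).mulVec u := rfl

theorem vecL_mul (Ψ : K →ₐ[ℚ] Matrix (Fin d) (Fin d) ℚ) (u : Fin d → ℚ) (x y : K) :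
    vecL Ψ u (x * y) = (Ψ x).mulVec (vecL Ψ u y) := by
  rw [vecL_apply, vecL_apply, map_mul, Matrix.mulVec_mulVec]

/-- The value of the real form `v` at `x u`. -/
noncomputable def val (Ψ : K →ₐ[ℚ] Matrix (Fin d) (Fin d) ℚ) (u : Fin d → ℚ) (v : Fin d → ℝ)
    (x : K) : ℝ := ∑ j, v j * ((vecL Ψ u x j : ℚ) : ℝ)

variable (Ψ : K →ₐ[ℚ] Matrix (Fin d) (Fin d) ℚ)

theorem val_add (u : Fin d → ℚ) (v v' : Fin d → ℝ) (x : K) :
    val Ψ u (v + v') x = val Ψ u v x + val Ψ u v' x := by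
  simp only [val, Pi.add_apply, add_mul, Finset.sum_add_distrib]

theorem val_smul (u : Fin d → ℚ) (r : ℝ) (v : Fin d → ℝ) (x : K) :
    val Ψ u (r • v) x = r * val Ψ u v x := by
  simp only [val, Pi.smul_apply, smul_eq_mul, Finset.mul_sum, mul_assoc]

theorem val_add_x (u : Fin d → ℚ) (v : Fin d → ℝ) (x y : K) :
    val Ψ u v (x + y) = val Ψ u v x + val Ψ u v y := by
  simp only [val, map_add, Pi.add_apply, Rat.cast_add, mul_add, Finset.sum_add_distrib]

theorem val_smul_x (u : Fin d → ℚ) (v : Fin d → ℝ) (q : ℚ) (x : K) :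
    val Ψ u v (q • x) = (q : ℝ) * val Ψ u v x := by
  simp only [val, map_smul, Pi.smul_apply, smul_eq_mul, Rat.cast_mul, Finset.mul_sum]
  apply Finset.sum_congr rfl
  intro j _
  ring

theorem val_vecMul (u : Fin d → ℚ) (v : Fin d → ℝ) (y x : K) :
    val Ψ u (Matrix.vecMul v ((Ψ y).map (Rat.cast : ℚ → ℝ))) x = val Ψ u v (y * x) := by
  simp only [val, vecL_mul, Matrix.vecMul, Matrix.mulVec, dotProduct, Matrix.map_apply]
  push_cast
  simp only [Finset.mul_sum, Finset.sum_mul]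
  rw [Finset.sum_comm]
  apply Finset.sum_congr rfl
  intro l _
  apply Finset.sum_congr rfl
  intro j _
  ring

/-- The value as a functional in `x`. -/
noncomputable def phi (u : Fin d → ℚ) (v : Fin d → ℝ) : K →ₗ[ℚ] ℂ where
  toFun x := ((val Ψ u v x : ℝ) : ℂ)
  map_add' x y := by rw [val_add_x]; push_cast; rfl
  map_smul' q x := by
    rw [val_smul_x, RingHom.id_apply, Rat.smul_def]
    push_cast
    rfl

/-- The coefficients of the form `x ↦ v (x u)` with respect to the embeddings. -/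
noncomputable def cf (u : Fin d → ℚ) (v : Fin d → ℝ) : (K →+* ℂ) → ℂ :=
  (coeff_exists (phi Ψ u v)).choose

theorem lf_cf (u : Fin d → ℚ) (v : Fin d → ℝ) (x : K) :
    lf K (cf Ψ u v) x = ((val Ψ u v x : ℝ) : ℂ) := (coeff_exists (phi Ψ u v)).choose_spec x

theorem cf_add (u : Fin d → ℚ) (v v' : Fin d → ℝ) :
    cf Ψ u (v + v') = cf Ψ u v + cf Ψ u v' := by
  apply lf_ext
  intro x
  have h1 : lf K (cf Ψ u v + cf Ψ u v') x = lf K (cf Ψ u v) x + lf K (cf Ψ u v') x := by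
    simp only [lf, Pi.add_apply, add_mul, Finset.sum_add_distrib]
  rw [h1, lf_cf, lf_cf, lf_cf, val_add]
  push_cast
  rfl

theorem cf_smul (u : Fin d → ℚ) (r : ℝ) (v : Fin d → ℝ) :
    cf Ψ u (r • v) = (r : ℂ) • cf Ψ u v := by
  apply lf_ext
  intro x
  have h1 : lf K ((r : ℂ) • cf Ψ u v) x = (r : ℂ) * lf K (cf Ψ u v) x := by
    simp only [lf, Pi.smul_apply, smul_eq_mul, Finset.mul_sum, mul_assoc]
  rw [h1, lf_cf, lf_cf, val_smul]
  push_cast
  rfl

theorem cf_zero (u : Fin d → ℚ) : cf Ψ u 0 = 0 := by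
  have := cf_smul Ψ u 0 0
  simpa using this

theorem cf_vecMul (u : Fin d → ℚ) (v : Fin d → ℝ) (y : K) :
    cf Ψ u (Matrix.vecMul v ((Ψ y).map (Rat.cast : ℚ → ℝ)))
      = (fun φ : K →+* ℂ => φ y) * cf Ψ u v := by
  apply lf_ext
  intro x
  have h3 : lf K ((fun σ : K →+* ℂ => σ y) * cf Ψ u v) x = lf K (cf Ψ u v) (y * x) := by
    simp only [lf, Pi.mul_apply, map_mul]
    apply Finset.sum_congr rfl
    intro σ _
    ring
  rw [h3, lf_cf, lf_cf, val_vecMul]

theorem cf_aeval (u : Fin d → ℚ) (y : K) (q : ℝ[X]) :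
    ∀ v : Fin d → ℝ, cf Ψ u (Matrix.vecMul v (aeval ((Ψ y).map (Rat.cast : ℚ → ℝ)) q))
      = (fun φ : K →+* ℂ => aeval (φ y) q) * cf Ψ u v := by
  induction q using Polynomial.induction_on with
  | C r =>
    intro v
    have h1 : Matrix.vecMul v (aeval ((Ψ y).map (Rat.cast : ℚ → ℝ)) (C r)) = r • v := by
      rw [aeval_C, Algebra.algebraMap_eq_smul_one, Matrix.vecMul_smul, Matrix.vecMul_one]
    rw [h1, cf_smul]
    funext φ
    simp
  | add p q hp hq =>
    intro v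
    rw [map_add, Matrix.vecMul_add, cf_add, hp, hq]
    funext φ
    simp [add_mul]
  | monomial n r ih =>
    intro v
    have h1 : aeval ((Ψ y).map (Rat.cast : ℚ → ℝ)) (C r * X ^ (n + 1))
        = aeval ((Ψ y).map (Rat.cast : ℚ → ℝ)) (C r * X ^ n) * (Ψ y).map (Rat.cast : ℚ → ℝ) := by
      rw [pow_succ, ← mul_assoc, map_mul, aeval_X]
    rw [h1, ← Matrix.vecMul_vecMul, cf_vecMul, ih]
    funext φ
    simp only [Pi.mul_apply, map_mul, aeval_C, map_pow, aeval_X]
    ring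

theorem cf_conj (u : Fin d → ℚ) (v : Fin d → ℝ) (σ : K →+* ℂ) :
    cf Ψ u v (ComplexEmbedding.conjugate σ) = (starRingEnd ℂ) (cf Ψ u v σ) :=
  coeff_conj K (cf Ψ u v) (fun x => by
    have h := lf_cf Ψ u v (x : K)
    unfold lf at h
    rw [h, Complex.ofReal_im]) σ

theorem val_comb (w : Fin m → Fin d → ℚ) (n : Fin m → ℚ) (v : Fin d → ℝ) (x : K) :
    val Ψ (∑ k, n k • w k) v x = ∑ k, (n k : ℝ) * val Ψ (w k) v x := by
  have h1 : vecL Ψ (∑ k, n k • w k) x = ∑ k, n k • vecL Ψ (w k) x := by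
    simp only [vecL_apply]
    rw [Matrix.mulVec_sum]
    apply Finset.sum_congr rfl
    intro k _
    rw [Matrix.mulVec_smul]
  simp only [val, h1, Finset.sum_apply, Pi.smul_apply, smul_eq_mul, Rat.cast_sum, Rat.cast_mul,
    Finset.mul_sum]
  rw [Finset.sum_comm]
  apply Finset.sum_congr rfl
  intro k _
  apply Finset.sum_congr rfl
  intro j _
  ring

theorem cf_comb (w : Fin m → Fin d → ℚ) (n : Fin m → ℚ) (v : Fin d → ℝ) :
    cf Ψ (∑ k, n k • w k) v = ∑ k, (n k : ℂ) • cf Ψ (w k) v := by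
  apply lf_ext
  intro x
  rw [lf_cf, lf_sum, val_comb]
  push_cast
  apply Finset.sum_congr rfl
  intro k _
  rw [lf_cf]

variable {Ψ}

theorem cf_injective {w : Fin m → Fin d → ℚ} (hw : IsKBasis Ψ w) (v : Fin d → ℝ)
    (h : ∀ k, cf Ψ (w k) v = 0) : v = 0 := by
  funext j
  obtain ⟨c, hc⟩ := hw.span (Pi.single j 1)
  have h1 : ∀ k, val Ψ (w k) v (c k) = 0 := by
    intro k
    have h2 := lf_cf Ψ (w k) v (c k)
    rw [h k] at h2
    have h3 : lf K (0 : (K →+* ℂ) → ℂ) (c k) = 0 := by simp [lf]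
    rw [h3] at h2
    exact_mod_cast h2.symm
  have h4 : ∑ k, val Ψ (w k) v (c k) = v j := by
    simp only [val, vecL_apply]
    rw [Finset.sum_comm]
    have h5 : ∀ i, ∑ k, v i * (((Ψ (c k)).mulVec (w k) i : ℚ) : ℝ)
        = v i * (((Pi.single j 1 : Fin d → ℚ) i : ℚ) : ℝ) := by
      intro i
      rw [← hc, Finset.sum_apply, ← Finset.mul_sum]
      push_cast
      rfl
    simp only [h5]
    rw [Finset.sum_eq_single j]
    · simp
    · intro l _ hl
      simp [Pi.single_eq_of_ne hl]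
    · intro h
      exact absurd (Finset.mem_univ j) h
  rw [← h4, Finset.sum_eq_zero (fun k _ => h1 k), Pi.zero_apply]

/-- The coefficient matrix. -/
noncomputable def aa (Ψ : K →ₐ[ℚ] Matrix (Fin d) (Fin d) ℚ) (w : Fin m → Fin d → ℚ)
    (g : Matrix (Fin d) (Fin d) ℝ) (i : Fin d) (p : Fin m × (K →+* ℂ)) : ℂ :=
  cf Ψ (w p.1) (g i) p.2

theorem aa_indep {w : Fin m → Fin d → ℚ} (hw : IsKBasis Ψ w) (g : Matrix (Fin d) (Fin d) ℝ)
    (hg : g.det ≠ 0) : LinearIndependent ℂ (aa Ψ w g) := by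
  rw [Fintype.linearIndependent_iff]
  intro c hc
  have h0 : ∀ k x, ∑ i, c i * ((val Ψ (w k) (g i) x : ℝ) : ℂ) = 0 := by
    intro k x
    have h1 : ∀ σ : K →+* ℂ, ∑ i, c i * cf Ψ (w k) (g i) σ = 0 := by
      intro σ
      have := congr_fun hc (k, σ)
      simpa [aa] using this
    simp only [← lf_cf, lf, Finset.mul_sum]
    rw [Finset.sum_comm]
    apply Finset.sum_eq_zero
    intro σ _
    have h2 := h1 σ
    calc ∑ i, c i * (cf Ψ (w k) (g i) σ * σ x) = (∑ i, c i * cf Ψ (w k) (g i) σ) * σ x := by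
          rw [Finset.sum_mul]
          apply Finset.sum_congr rfl
          intro i _
          ring
      _ = 0 := by rw [h2, zero_mul]
  have h1 : Matrix.vecMul c (g.map (Complex.ofRealHom : ℝ →+* ℂ)) = 0 := by
    funext j
    obtain ⟨b, hb⟩ := hw.span (Pi.single j 1)
    have h4 : ∀ i, ∑ k, ((val Ψ (w k) (g i) (b k) : ℝ) : ℂ) = (g i j : ℂ) := by
      intro i
      rw [← Complex.ofReal_sum]
      congr 1
      simp only [val, vecL_apply]
      rw [Finset.sum_comm]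
      have h5 : ∀ l, ∑ k, g i l * (((Ψ (b k)).mulVec (w k) l : ℚ) : ℝ)
          = g i l * (((Pi.single j 1 : Fin d → ℚ) l : ℚ) : ℝ) := by
        intro l
        rw [← hb, Finset.sum_apply, ← Finset.mul_sum]
        push_cast
        rfl
      simp only [h5]
      rw [Finset.sum_eq_single j]
      · simp
      · intro l _ hl
        simp [Pi.single_eq_of_ne hl]
      · intro h
        exact absurd (Finset.mem_univ j) h
    have h6 : Matrix.vecMul c (g.map (Complex.ofRealHom : ℝ →+* ℂ)) j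
        = ∑ i, c i * (g i j : ℂ) := rfl
    rw [h6]
    simp only [← h4, Finset.mul_sum]
    rw [Finset.sum_comm, Finset.sum_eq_zero (fun k _ => h0 k (b k)), Pi.zero_apply]
  have h3 : (g.map (Complex.ofRealHom : ℝ →+* ℂ)).det ≠ 0 := by
    rw [← RingHom.mapMatrix_apply, ← RingHom.map_det]
    simpa using hg
  have h4 := Matrix.eq_zero_of_vecMul_eq_zero h3 h1
  intro i
  exact congr_fun h4 i

end Pool.Agent.H66.FR
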