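import Mathlib
import Pool.Agent.H46.Blk.Engine

/-!
# The unit argument with multiplicities

Generalisation of `Pool.Agent.H46.Blk.engine` (helper46) to products of `m * [K : ℚ]` linear forms
on the ring of integers of `K`.
-/

set_option autoImplicit false

namespace Pool.Agent.H66.FR

open Filter Topology NumberField Pool.Agent.H46 Pool.Agent.H46.Blk

variable {K : Type*} [Field K] [NumberField K]

theorem dirI_sum_m {ι : Type*} [Fintype ι] [DecidableEq ι] (I : Finset ι)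
    (S : Finset (K →+* ℂ)) (m : ℕ) (hι : Fintype.card ι = m * Module.finrank ℚ K)
    (hcard : I.card = m * S.card) : ∑ i : ι, dirI I S i = 0 := by
  classical
  unfold dirI
  rw [Finset.sum_ite]
  simp only [Finset.sum_const, nsmul_eq_mul]
  have h1 : (Finset.univ.filter (fun i : ι => i ∈ I)).card = I.card := by
    congr 1; ext; simp
  have h2 : (Finset.univ.filter (fun i : ι => i ∉ I)).card
      = m * Module.finrank ℚ K - I.card := by
    have h3 := Finset.card_filter_add_card_filter_not (s := (Finset.univ : Finset ι))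
      (fun i => i ∈ I)
    rw [h1, Finset.card_univ, hι] at h3
    omega
  have h4 : I.card ≤ m * Module.finrank ℚ K := by
    rw [← hι]
    exact Finset.card_le_univ I
  rw [h1, h2, Nat.cast_sub h4, hcard]
  push_cast
  ring

/-- The truncated product is still bounded below on nonzero integers. -/
theorem trunc_lower_m {ι : Type*} [Fintype ι] [DecidableEq ι] (a : ι → (K →+* ℂ) → ℂ) (I : Finset ι)
    (S : Finset (K →+* ℂ)) (m : ℕ) (hι : Fintype.card ι = m * Module.finrank ℚ K)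
    (hcard : I.card = m * S.card)
    (hIS : ∀ i ∈ I, ∀ σ, σ ∉ S → a i σ = 0)
    (hSc : ∀ σ, σ ∈ S ↔ ComplexEmbedding.conjugate σ ∈ S)
    (ν : ℝ) (hν : ∀ x : 𝓞 K, x ≠ 0 → ν ≤ ‖∏ i, lf K (a i) (x : K)‖)
    (x : 𝓞 K) (hx : x ≠ 0) : ν ≤ ‖∏ i, lf K (trunc a I S i) (x : K)‖ := by
  classical
  have hd : (0 : ℝ) < Module.finrank ℚ K := by exact_mod_cast Module.finrank_pos
  have hconj : ∀ φ, dirS S (ComplexEmbedding.conjugate φ) = dirS S φ := by
    intro φ
    unfold dirS
    by_cases h : φ ∈ S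
    · rw [if_pos h, if_pos ((hSc φ).mp h)]
    · rw [if_neg h, if_neg (fun h2 => h ((hSc φ).mpr h2))]
  choose s hs u hu using fun n : ℕ => units_recur K (dirS S) hconj (dirS_sum S)
    (1 / ((n : ℝ) + 1)) (by positivity) (n : ℝ)
  have hs_top : Tendsto s atTop atTop := tendsto_atTop_mono hs tendsto_natCast_atTop_atTop
  have hz : ∀ φ : K →+* ℂ, Tendsto (fun n => φ ((u n : 𝓞 K) : K)
      * Complex.exp (-((s n * dirS S φ : ℝ) : ℂ))) atTop (𝓝 1) := by
    intro φ
    rw [tendsto_iff_norm_sub_tendsto_zero]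
    exact squeeze_zero (fun n => norm_nonneg _) (fun n => (hu n φ).le)
      tendsto_one_div_add_atTop_nhds_zero_nat
  -- the rescaled values
  let G : ℕ → ι → ℂ := fun n i => ∑ σ : K →+* ℂ, a i σ * σ (x : K)
    * (σ ((u n : 𝓞 K) : K) * Complex.exp (-((s n * dirS S σ : ℝ) : ℂ)))
    * Complex.exp ((s n * (dirS S σ - dirI I S i) : ℝ) : ℂ)
  have hG1 : ∀ n i, G n i = Complex.exp ((-(s n * dirI I S i) : ℝ) : ℂ)
      * lf K (a i) (((u n : 𝓞 K) * x : 𝓞 K) : K) := by
    intro n i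
    simp only [G, lf]
    rw [Finset.mul_sum]
    apply Finset.sum_congr rfl
    intro σ _
    have h1 : Complex.exp (-((s n * dirS S σ : ℝ) : ℂ))
        * Complex.exp ((s n * (dirS S σ - dirI I S i) : ℝ) : ℂ)
        = Complex.exp ((-(s n * dirI I S i) : ℝ) : ℂ) := by
      rw [← Complex.exp_add]
      congr 1
      push_cast
      ring
    have h2 : σ ((((u n : 𝓞 K) * x : 𝓞 K)) : K) = σ ((u n : 𝓞 K) : K) * σ (x : K) := by
      push_cast
      rw [map_mul]
    rw [h2, ← h1]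
    ring
  have hG2 : ∀ n, ν ≤ ‖∏ i, G n i‖ := by
    intro n
    have h1 : ∏ i, G n i = ∏ i, lf K (a i) (((u n : 𝓞 K) * x : 𝓞 K) : K) := by
      simp only [hG1]
      rw [Finset.prod_mul_distrib, ← Complex.exp_sum]
      have h2 : ∑ i, ((-(s n * dirI I S i) : ℝ) : ℂ) = 0 := by
        rw [← Complex.ofReal_sum, Finset.sum_neg_distrib, ← Finset.mul_sum,
          dirI_sum_m I S m hι hcard]
        simp
      rw [h2, Complex.exp_zero, one_mul]
    rw [h1]
    apply hν
    exact mul_ne_zero (Units.ne_zero _) hx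
  have hG3 : ∀ i, Tendsto (fun n => G n i) atTop (𝓝 (lf K (trunc a I S i) (x : K))) := by
    intro i
    apply tendsto_finsetSum
    intro σ _
    unfold trunc
    by_cases h : i ∈ I ↔ σ ∈ S
    · rw [if_pos h, dir_eq I S i σ h]
      simp only [sub_self, mul_zero, Complex.ofReal_zero, Complex.exp_zero, mul_one]
      have h1 := (hz σ).const_mul (a i σ * σ (x : K))
      rw [dir_eq I S i σ h] at h1
      simpa using h1
    · rw [if_neg h, zero_mul]
      by_cases hi : i ∈ I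
      · have hσ : σ ∉ S := fun hσ => h ⟨fun _ => hσ, fun _ => hi⟩
        rw [hIS i hi σ hσ]
        simp
      · have hσ : σ ∈ S := by
          by_contra hσ
          exact h ⟨fun h' => absurd h' hi, fun h' => absurd h' hσ⟩
        have hdir : dirS S σ - dirI I S i = -(Module.finrank ℚ K : ℝ) := by
          unfold dirS dirI
          rw [if_pos hσ, if_neg hi]
          ring
        rw [hdir]
        have h2 : Tendsto (fun n => Complex.exp ((s n * -(Module.finrank ℚ K : ℝ) : ℝ) : ℂ)) atTop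
            (𝓝 0) := by
          rw [tendsto_zero_iff_norm_tendsto_zero]
          have h3 : ∀ n, ‖Complex.exp ((s n * -(Module.finrank ℚ K : ℝ) : ℝ) : ℂ)‖
              = Real.exp (s n * -(Module.finrank ℚ K : ℝ)) := by
            intro n
            rw [Complex.norm_exp, Complex.ofReal_re]
          simp only [h3]
          apply Real.tendsto_exp_atBot.comp
          exact hs_top.atTop_mul_const_of_neg (by linarith)
        have h4 := ((hz σ).const_mul (a i σ * σ (x : K))).mul h2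
        simpa using h4
  have hlim : Tendsto (fun n => ‖∏ i, G n i‖) atTop
      (𝓝 ‖∏ i, lf K (trunc a I S i) (x : K)‖) :=
    (tendsto_finsetProd _ fun i _ => hG3 i).norm
  exact ge_of_tendsto hlim (Eventually.of_forall hG2)

/-- The main engine: rows of a block triangular coefficient matrix whose product is bounded below on
the nonzero integers have at most one nonzero entry in their diagonal block. -/
theorem engine_m {ι : Type*} [Fintype ι] [DecidableEq ι] (a : ι → (K →+* ℂ) → ℂ) (I : Finset ι)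
    (S : Finset (K →+* ℂ)) (m : ℕ) (hι : Fintype.card ι = m * Module.finrank ℚ K)
    (hcard : I.card = m * S.card)
    (hS0 : S.Nonempty) (hS1 : S ≠ Finset.univ)
    (hprim : ∀ u : K, (∀ φ ψ : K →+* ℂ, φ u = ψ u → φ ∈ S → ψ ∈ S) →
      Function.Injective (fun φ : K →+* ℂ => φ u))
    (hIS : ∀ i ∈ I, ∀ σ, σ ∉ S → a i σ = 0)
    (hSc : ∀ σ, σ ∈ S ↔ ComplexEmbedding.conjugate σ ∈ S)
    (hreal : ∀ i, ∀ x : 𝓞 K, (lf K (a i) (x : K)).im = 0)
    (ν : ℝ) (hν0 : 0 < ν) (hν : ∀ x : 𝓞 K, x ≠ 0 → ν ≤ ‖∏ i, lf K (a i) (x : K)‖)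
    (i : ι) (σ τ : K →+* ℂ) (hσ : i ∈ I ↔ σ ∈ S) (hτ : i ∈ I ↔ τ ∈ S)
    (haσ : a i σ ≠ 0) (haτ : a i τ ≠ 0) : σ = τ := by
  classical
  -- numerical facts
  have hpd : S.card ≤ Module.finrank ℚ K := by
    rw [← Embeddings.card K ℂ]
    exact Finset.card_le_univ S
  have hp0 : S.card ≠ 0 := by
    intro h
    exact hS0.ne_empty (Finset.card_eq_zero.mp h)
  have hpd' : S.card ≠ Module.finrank ℚ K := by
    intro h
    rw [← Embeddings.card K ℂ] at h
    exact hS1 ((Finset.card_eq_iff_eq_univ S).mp h)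
  have hp1 : (1 : ℝ) ≤ S.card := by exact_mod_cast Nat.one_le_iff_ne_zero.mpr hp0
  have hq1 : (1 : ℝ) ≤ (Module.finrank ℚ K : ℝ) - S.card := by
    have : S.card + 1 ≤ Module.finrank ℚ K := by omega
    have h2 : ((S.card + 1 : ℕ) : ℝ) ≤ Module.finrank ℚ K := by exact_mod_cast this
    push_cast at h2
    linarith
  have hconj : ∀ φ, dirS S (ComplexEmbedding.conjugate φ) = dirS S φ := by
    intro φ
    unfold dirS
    by_cases h : φ ∈ S
    · rw [if_pos h, if_pos ((hSc φ).mp h)]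
    · rw [if_neg h, if_neg (fun h2 => h ((hSc φ).mpr h2))]
  set T := trunc a I S with hT
  have hTlow : ∀ x : 𝓞 K, x ≠ 0 → ν ≤ ‖∏ i, lf K (T i) (x : K)‖ := fun x hx =>
    trunc_lower_m a I S m hι hcard hIS hSc ν hν x hx
  have hTreal : ∀ i, ∀ x : K, (lf K (T i) x).im = 0 := by
    intro i x
    apply real_of_coeff_conj
    intro φ
    have h1 := coeff_conj K (a i) (hreal i) φ
    simp only [hT, trunc]
    by_cases h : i ∈ I ↔ φ ∈ S
    · rw [if_pos h, if_pos (h.trans (hSc φ)), h1]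
    · rw [if_neg h, if_neg (fun h2 => h (h2.trans (hSc φ).symm)), map_zero]
  -- the closed group
  let B : AddSubgroup ((K →+* ℂ) → ℂ) := logGroup (dirS S)
  let D : AddSubgroup ((K →+* ℂ) → ℂ) := B.topologicalClosure
  have hDc : IsClosed (D : Set ((K →+* ℂ) → ℂ)) := AddSubgroup.isClosed_topologicalClosure _
  let V : ((K →+* ℂ) → ℂ) → 𝓞 K → ι → ℂ := fun y x i =>
    ∑ φ : K →+* ℂ, T i φ * (Complex.exp (y φ) * φ (x : K))
  have hVcont : ∀ x i, Continuous (fun y => V y x i) := by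
    intro x i
    simp only [V]
    fun_prop
  have hBV : ∀ y ∈ B, ∀ x : 𝓞 K, ∃ (u : (𝓞 K)ˣ) (s : ℝ), ∀ i,
      V y x i = Complex.exp ((s * dirI I S i : ℝ) : ℂ) * lf K (T i) (((u : 𝓞 K) * x : 𝓞 K) : K) := by
    rintro y ⟨u, s, hu⟩ x
    refine ⟨u, s, fun i => ?_⟩
    simp only [V, lf]
    rw [Finset.mul_sum]
    apply Finset.sum_congr rfl
    intro φ _
    have h2 : φ ((((u : 𝓞 K) * x : 𝓞 K)) : K) = φ ((u : 𝓞 K) : K) * φ (x : K) := by
      push_cast
      rw [map_mul]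
    rw [hu, h2]
    simp only [hT, trunc]
    by_cases h : i ∈ I ↔ φ ∈ S
    · rw [if_pos h, dir_eq I S i φ h]
      ring
    · rw [if_neg h]
      ring
  have hDreal : ∀ y ∈ D, ∀ (x : 𝓞 K) (i : ι), (V y x i).im = 0 := by
    intro y hy x i
    have hclosed : IsClosed {y : (K →+* ℂ) → ℂ | (V y x i).im = 0} :=
      isClosed_eq (Complex.continuous_im.comp (hVcont x i)) continuous_const
    refine closure_minimal ?_ hclosed hy
    intro y hy
    obtain ⟨u, s, hus⟩ := hBV y hy x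
    change (V y x i).im = 0
    rw [hus i, ← Complex.ofReal_exp, Complex.im_ofReal_mul, hTreal, mul_zero]
  have hDlow : ∀ y ∈ D, ∀ (x : 𝓞 K), x ≠ 0 → ν ≤ ‖∏ i, V y x i‖ := by
    intro y hy x hx
    have hclosed : IsClosed {y : (K →+* ℂ) → ℂ | ν ≤ ‖∏ i, V y x i‖} :=
      isClosed_le continuous_const (continuous_finsetProd _ fun i _ => hVcont x i).norm
    refine closure_minimal ?_ hclosed hy
    intro y hy
    obtain ⟨u, s, hus⟩ := hBV y hy x
    change ν ≤ ‖∏ i, V y x i‖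
    simp only [hus]
    rw [Finset.prod_mul_distrib, ← Complex.exp_sum]
    have h2 : ∑ i, ((s * dirI I S i : ℝ) : ℂ) = 0 := by
      rw [← Complex.ofReal_sum, ← Finset.mul_sum, dirI_sum_m I S m hι hcard]
      simp
    rw [h2, Complex.exp_zero, one_mul]
    exact hTlow _ (mul_ne_zero (Units.ne_zero _) hx)
  have hDne : ∀ y ∈ D, ∀ (x : 𝓞 K), x ≠ 0 → ∀ i, V y x i ≠ 0 := by
    intro y hy x hx i h0
    have h1 := hDlow y hy x hx
    rw [Finset.prod_eq_zero (Finset.mem_univ i) h0, norm_zero] at h1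
    linarith
  obtain ⟨δ, hδ, hline⟩ := closed_small D hDc
  -- closeness needed for the logarithm
  have hlog : ∃ ε > 0, ε ≤ 1 / 2 ∧ ∀ z : ℂ, ‖z - 1‖ < ε → ‖Complex.log z‖ < δ := by
    have hc : ContinuousAt Complex.log 1 := continuousAt_clog (by simp [Complex.slitPlane])
    rw [Metric.continuousAt_iff] at hc
    obtain ⟨ε, hε, hh⟩ := hc δ hδ
    refine ⟨min ε (1 / 2), lt_min hε (by norm_num), min_le_right _ _, fun z hz => ?_⟩
    have h1 := hh (x := z) (by rw [dist_eq_norm]; exact lt_of_lt_of_le hz (min_le_left _ _))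
    rwa [Complex.log_one, dist_zero_right] at h1
  obtain ⟨ε, hε, hε2, hlogε⟩ := hlog
  -- small elements of the ring of integers, in the block of row `i`
  have hsmall : ∀ η > 0, ∃ x : 𝓞 K, (∀ φ : K →+* ℂ, φ (x : K) ≠ 0) ∧
      ∀ φ : K →+* ℂ, (i ∈ I ↔ φ ∈ S) → ‖φ (x : K)‖ < η := by
    intro η hη
    obtain ⟨R, hR1, hR⟩ : ∃ R : ℝ, 0 ≤ R ∧ ∀ s : ℝ, R ≤ s → Real.exp (-s) < η / 2 := by
      obtain ⟨R0, hR0⟩ := exists_nat_gt (2 / η)
      refine ⟨R0, Nat.cast_nonneg _, fun s hs => ?_⟩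
      rw [Real.exp_neg, inv_lt_comm₀ (Real.exp_pos s) (by positivity)]
      have h1 := Real.add_one_le_exp s
      have h2 : (η / 2)⁻¹ = 2 / η := by rw [inv_div]
      rw [h2]
      linarith
    obtain ⟨s, hs, u, hu⟩ := units_recur K (dirS S) hconj (dirS_sum S) (1 / 2) (by norm_num) R
    have hs0 : 0 ≤ s := hR1.trans hs
    have hznorm : ∀ φ : K →+* ℂ, ‖φ ((u : 𝓞 K) : K) * Complex.exp (-((s * dirS S φ : ℝ) : ℂ))‖
        = ‖φ ((u : 𝓞 K) : K)‖ * Real.exp (-(s * dirS S φ)) := by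
      intro φ
      rw [norm_mul, Complex.norm_exp, Complex.neg_re, Complex.ofReal_re]
    have hup : ∀ φ : K →+* ℂ, ‖φ ((u : 𝓞 K) : K)‖ * Real.exp (-(s * dirS S φ)) ≤ 3 / 2 := by
      intro φ
      rw [← hznorm]
      have h1 := norm_sub_norm_le (φ ((u : 𝓞 K) : K) * Complex.exp (-((s * dirS S φ : ℝ) : ℂ))) 1
      have h2 := (hu φ).le
      rw [norm_one] at h1
      linarith
    have hlow : ∀ φ : K →+* ℂ, 1 / 2 ≤ ‖φ ((u : 𝓞 K) : K)‖ * Real.exp (-(s * dirS S φ)) := by
      intro φ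
      rw [← hznorm]
      have h1 := norm_sub_norm_le 1 (φ ((u : 𝓞 K) : K) * Complex.exp (-((s * dirS S φ : ℝ) : ℂ)))
      have h2 := (hu φ).le
      rw [norm_sub_rev] at h2
      rw [norm_one] at h1
      linarith
    by_cases hi : i ∈ I
    · refine ⟨u, fun φ => by simp, fun φ hφ => ?_⟩
      have hφS : φ ∈ S := hφ.mp hi
      have hdir : dirS S φ = -((Module.finrank ℚ K : ℝ) - S.card) := by
        unfold dirS; rw [if_pos hφS]
      have h1 := hup φ
      rw [hdir] at h1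
      have h2 : Real.exp s ≤ Real.exp (-(s * -((Module.finrank ℚ K : ℝ) - S.card))) := by
        apply Real.exp_le_exp.mpr
        nlinarith
      have h3 : ‖φ ((u : 𝓞 K) : K)‖ * Real.exp s ≤ 3 / 2 :=
        (mul_le_mul_of_nonneg_left h2 (norm_nonneg _)).trans h1
      have h4 := hR s hs
      have h5 : ‖φ ((u : 𝓞 K) : K)‖ = (‖φ ((u : 𝓞 K) : K)‖ * Real.exp s) * Real.exp (-s) := by
        rw [mul_assoc, ← Real.exp_add]; simp
      rw [h5]
      have h6 := Real.exp_pos (-s)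
      nlinarith
    · refine ⟨((u⁻¹ : (𝓞 K)ˣ) : 𝓞 K), fun φ => by simp, fun φ hφ => ?_⟩
      have hφS : φ ∉ S := fun h => hi (hφ.mpr h)
      have hdir : dirS S φ = S.card := by
        unfold dirS; rw [if_neg hφS]
      have h1 := hlow φ
      rw [hdir] at h1
      have hinv : ‖φ (((u⁻¹ : (𝓞 K)ˣ) : 𝓞 K) : K)‖ * ‖φ ((u : 𝓞 K) : K)‖ = 1 := by
        rw [← norm_mul, ← map_mul, ← map_mul]
        simp
      have h2 : Real.exp (-(s * S.card)) ≤ Real.exp (-s) := by
        apply Real.exp_le_exp.mpr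
        nlinarith
      have h3 : 1 / 2 ≤ ‖φ ((u : 𝓞 K) : K)‖ * Real.exp (-s) :=
        h1.trans (mul_le_mul_of_nonneg_left h2 (norm_nonneg _))
      have h4 := hR s hs
      have h5 : 0 ≤ ‖φ (((u⁻¹ : (𝓞 K)ˣ) : 𝓞 K) : K)‖ := norm_nonneg _
      have h6 : ‖φ (((u⁻¹ : (𝓞 K)ˣ) : 𝓞 K) : K)‖ * (1 / 2) ≤ Real.exp (-s) := by
        calc ‖φ (((u⁻¹ : (𝓞 K)ˣ) : 𝓞 K) : K)‖ * (1 / 2)
            ≤ ‖φ (((u⁻¹ : (𝓞 K)ˣ) : 𝓞 K) : K)‖ * (‖φ ((u : 𝓞 K) : K)‖ * Real.exp (-s)) :=
              mul_le_mul_of_nonneg_left h3 h5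
          _ = Real.exp (-s) := by rw [← mul_assoc, hinv, one_mul]
      linarith
  -- the special unit
  obtain ⟨s, hs, u, hu⟩ := units_recur K (dirS S) hconj (dirS_sum S) ε hε 1
  let z : (K →+* ℂ) → ℂ := fun φ =>
    φ ((u : 𝓞 K) : K) * Complex.exp (-((s * dirS S φ : ℝ) : ℂ))
  have hz0 : ∀ φ, z φ ≠ 0 := by
    intro φ
    exact mul_ne_zero (by simp) (Complex.exp_ne_zero _)
  let y : (K →+* ℂ) → ℂ := fun φ => Complex.log (z φ)
  have hyexp : ∀ φ, Complex.exp (y φ) = z φ := fun φ => Complex.exp_log (hz0 φ)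
  have hyB : y ∈ B := by
    refine ⟨u, -s, fun φ => ?_⟩
    rw [hyexp]
    simp only [z]
    congr 2
    push_cast
    ring
  have hyD : y ∈ D := AddSubgroup.le_topologicalClosure _ hyB
  have hynorm : ‖y‖ < δ := by
    rw [pi_norm_lt_iff hδ]
    intro φ
    exact hlogε _ (hu φ)
  have hyline := hline y hyD hynorm
  -- apply the sign argument in the block of row `i`
  let ι' := {φ : K →+* ℂ // (i ∈ I ↔ φ ∈ S)}
  let j : 𝓞 K →+* (ι' → ℂ) := RingHom.pi fun φ => φ.1.comp (algebraMap (𝓞 K) K)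
  have hj : ∀ (x : 𝓞 K) (φ : ι'), j x φ = φ.1 (x : K) := fun x φ => rfl
  -- sums over the block
  have hblock : ∀ f : (K →+* ℂ) → ℂ, (∀ φ, ¬ (i ∈ I ↔ φ ∈ S) → f φ = 0) →
      ∑ φ : ι', f φ.1 = ∑ φ : K →+* ℂ, f φ := by
    intro f hf
    rw [← Finset.sum_subtype (Finset.univ.filter fun φ : K →+* ℂ => (i ∈ I ↔ φ ∈ S)) (by simp) f]
    apply Finset.sum_subset (Finset.filter_subset _ _)
    intro φ _ hφ
    apply hf
    simpa using hφ
  have hVt : ∀ (t : ℝ) (x : 𝓞 K),
      ∑ φ : ι', a i φ.1 * (Complex.exp (t * y φ.1) * j x φ) = V (t • y) x i := by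
    intro t x
    simp only [hj, V]
    rw [← hblock (fun φ => T i φ * (Complex.exp ((t • y) φ) * φ (x : K)))]
    · apply Finset.sum_congr rfl
      intro φ _
      have h1 : T i φ.1 = a i φ.1 := by
        simp only [hT, trunc]
        rw [if_pos φ.2]
      rw [h1, Pi.smul_apply, Complex.real_smul]
    · intro φ hφ
      have h1 : T i φ = 0 := by
        simp only [hT, trunc]
        rw [if_neg hφ]
      rw [h1, zero_mul]
  have hindep : ∀ c : ι' → ℂ, (∀ x : 𝓞 K, ∑ φ : ι', c φ * j x φ = 0) → c = 0 := by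
    intro c hc
    let c' : (K →+* ℂ) → ℂ := fun φ => if h : (i ∈ I ↔ φ ∈ S) then c ⟨φ, h⟩ else 0
    have h1 : c' = 0 := by
      apply indep_integers K
      intro x
      rw [← hblock (fun φ => c' φ * φ (x : K))]
      · rw [← hc x]
        apply Finset.sum_congr rfl
        intro φ _
        simp only [c', hj]
        rw [dif_pos φ.2]
      · intro φ hφ
        simp only [c']
        rw [dif_neg hφ, zero_mul]
    funext φ
    have h2 := congr_fun h1 φ.1
    simp only [c', Pi.zero_apply] at h2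
    rw [dif_pos φ.2] at h2
    exact h2
  have hexp := sign_arg j
    (by
      intro η hη
      obtain ⟨x, hx0, hx⟩ := hsmall η hη
      refine ⟨x, fun φ => hx0 φ.1, ?_⟩
      rw [pi_norm_lt_iff hη]
      intro φ
      exact hx φ.1 φ.2)
    (fun φ => a i φ.1) (fun φ => y φ.1)
    (by
      intro t x
      rw [hVt]
      exact hDreal _ (hyline t) x i)
    (by
      intro t x hx
      rw [hVt]
      exact hDne _ (hyline t) x hx i)
    hindep ⟨σ, hσ⟩ ⟨τ, hτ⟩ haσ haτ
  simp only [hyexp, z] at hexp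
  have hdirστ : dirS S σ = dirS S τ := by
    rw [dir_eq I S i σ hσ, dir_eq I S i τ hτ]
  rw [hdirστ] at hexp
  have huστ : σ ((u : 𝓞 K) : K) = τ ((u : 𝓞 K) : K) :=
    mul_right_cancel₀ (Complex.exp_ne_zero _) hexp
  -- the block is determined by the size of the unit
  have hznorm : ∀ φ : K →+* ℂ, ‖φ ((u : 𝓞 K) : K) * Complex.exp (-((s * dirS S φ : ℝ) : ℂ))‖
      = ‖φ ((u : 𝓞 K) : K)‖ * Real.exp (-(s * dirS S φ)) := by
    intro φ
    rw [norm_mul, Complex.norm_exp, Complex.neg_re, Complex.ofReal_re]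
  have hup : ∀ φ : K →+* ℂ, ‖φ ((u : 𝓞 K) : K)‖ * Real.exp (-(s * dirS S φ)) ≤ 3 / 2 := by
    intro φ
    rw [← hznorm]
    have h1 := norm_sub_norm_le (φ ((u : 𝓞 K) : K) * Complex.exp (-((s * dirS S φ : ℝ) : ℂ))) 1
    have h2 := (hu φ).le
    rw [norm_one] at h1
    linarith
  have hlow : ∀ φ : K →+* ℂ, 1 / 2 ≤ ‖φ ((u : 𝓞 K) : K)‖ * Real.exp (-(s * dirS S φ)) := by
    intro φ
    rw [← hznorm]
    have h1 := norm_sub_norm_le 1 (φ ((u : 𝓞 K) : K) * Complex.exp (-((s * dirS S φ : ℝ) : ℂ)))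
    have h2 := (hu φ).le
    rw [norm_sub_rev] at h2
    rw [norm_one] at h1
    linarith
  have he : (2 : ℝ) < Real.exp 1 := by
    have := Real.exp_one_gt_d9
    linarith
  have hSnorm : ∀ φ : K →+* ℂ, φ ∈ S ↔ ‖φ ((u : 𝓞 K) : K)‖ < 1 := by
    intro φ
    constructor
    · intro hφ
      have hdir : dirS S φ = -((Module.finrank ℚ K : ℝ) - S.card) := by
        unfold dirS; rw [if_pos hφ]
      have h1 := hup φ
      rw [hdir] at h1
      have h2 : Real.exp 1 ≤ Real.exp (-(s * -((Module.finrank ℚ K : ℝ) - S.card))) := by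
        apply Real.exp_le_exp.mpr
        nlinarith
      have h3 := (mul_le_mul_of_nonneg_left h2 (norm_nonneg (φ ((u : 𝓞 K) : K)))).trans h1
      by_contra hcon
      push Not at hcon
      nlinarith
    · intro hφ
      by_contra hφS
      have hdir : dirS S φ = S.card := by
        unfold dirS; rw [if_neg hφS]
      have h1 := hlow φ
      rw [hdir] at h1
      have h2 : Real.exp (-(s * S.card)) ≤ Real.exp (-1) := by
        apply Real.exp_le_exp.mpr
        nlinarith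
      have h3 := h1.trans (mul_le_mul_of_nonneg_left h2 (norm_nonneg (φ ((u : 𝓞 K) : K))))
      rw [Real.exp_neg] at h3
      have h4 : (Real.exp 1)⁻¹ < 1 / 2 := by
        rw [inv_lt_comm₀ (Real.exp_pos 1) (by norm_num)]
        norm_num
        exact he
      have h5 : 0 < (Real.exp 1)⁻¹ := by positivity
      nlinarith [norm_nonneg (φ ((u : 𝓞 K) : K))]
  refine hprim ((u : 𝓞 K) : K) ?_ huστ
  intro φ ψ hφψ hφ
  rw [hSnorm] at hφ ⊢
  rw [← hφψ]
  exact hφ

end Pool.Agent.H66.FR
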