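import Pool.Agent.H66.FR.Isolate

/-!
# Rigidity of products of linear forms with a block defined over a field
-/

set_option autoImplicit false

namespace Pool.Agent.H66.FR

open Filter Topology NumberField Module Polynomial Pool.Agent.H46 Pool.Agent.H89.CSD

variable {d : ℕ}

theorem field_rigidity (g : Matrix (Fin d) (Fin d) ℝ) (hg : g.det ≠ 0)
    (B : Matrix (Fin d) (Fin d) ℤ) (hB : Irreducible (minpoly ℚ (qm B)))
    (he : 3 ≤ (minpoly ℚ (qm B)).natDegree)
    (D : ℕ → Fin d → ℝ) (U : ℕ → (Matrix (Fin d) (Fin d) ℤ)ˣ) (h : Matrix (Fin d) (Fin d) ℝ)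
    (hh : h.det ≠ 0)
    (hlim : Tendsto (fun n => Matrix.diagonal (D n) * g * im (U n : Matrix (Fin d) (Fin d) ℤ)) atTop
      (𝓝 h))
    (I : Finset (Fin d)) (hI0 : I.Nonempty) (hI1 : I ≠ Finset.univ) (q : ℝ[X])
    (hq : ∀ v : Fin d → ℝ, v ∈ Submodule.span ℝ (h '' (I : Set (Fin d))) ↔
      Matrix.vecMul v (aeval (rm B) q) = 0)
    (hprim : ∀ (p : ℤ[X]) (q' : ℝ[X]),
      (∀ v : Fin d → ℝ, v ∈ Submodule.span ℝ (h '' (I : Set (Fin d))) ↔
        Matrix.vecMul v (aeval (rm (aeval B p)) q') = 0) →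
      (minpoly ℚ (qm (aeval B p))).natDegree = (minpoly ℚ (qm B)).natDegree)
    (ε : ℝ) (hε : 0 < ε) (hlow : ∀ x : Fin d → ℤ, x ≠ 0 → ε ≤ |∏ i, ∑ j, g i j * (x j : ℝ)|) :
    ∃ (V : (Matrix (Fin d) (Fin d) ℤ)ˣ) (μ : Fin d → ℝ),
      (∀ i, Matrix.vecMul (g i) (im ((V : Matrix (Fin d) (Fin d) ℤ) * B *
        ((V⁻¹ : (Matrix (Fin d) (Fin d) ℤ)ˣ) : Matrix (Fin d) (Fin d) ℤ))) = μ i • g i) ∧
      ((minpoly ℚ (qm B)).natDegree = d → Function.Injective μ) := by
  classical
  have hgpos : Pos ε g := hlow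
  set z : ℕ → Matrix (Fin d) (Fin d) ℝ := fun n =>
    Matrix.diagonal (D n) * g * im (U n : Matrix (Fin d) (Fin d) ℤ) with hz
  have hzdet : ∀ n, |(z n).det| = |∏ i, D n i| * |g.det| := by
    intro n
    simp only [hz]
    rw [Matrix.det_mul, Matrix.det_mul, Matrix.det_diagonal, abs_mul, abs_mul, abs_det_im_unit,
      mul_one]
  have hdetlim : Tendsto (fun n => |(z n).det|) atTop (𝓝 |h.det|) :=
    ((continuous_det'.tendsto h).comp hlim).abs
  have hgabs : 0 < |g.det| := abs_pos.mpr hg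
  have hhabs : 0 < |h.det| := abs_pos.mpr hh
  set c : ℝ := |h.det| / (2 * |g.det|) * ε with hc
  have hcpos : 0 < c := by positivity
  have hev : ∀ᶠ n in atTop, |h.det| / 2 < |(z n).det| :=
    hdetlim.eventually (lt_mem_nhds (by linarith))
  have hzpos : ∀ᶠ n in atTop, Pos c (z n) := by
    filter_upwards [hev] with n hn
    rw [hzdet] at hn
    have h1 : |h.det| / (2 * |g.det|) ≤ |∏ i, D n i| := by
      rw [div_le_iff₀ (by positivity)]
      nlinarith
    have h2 : Pos c (Matrix.diagonal (D n) * g) := by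
      intro x hx
      rw [P_diag_mul, abs_mul, hc]
      exact mul_le_mul h1 (hgpos x hx) hε.le (abs_nonneg _)
    exact h2.mul_im (det_unit_ne (U n))
  have hpos : Pos c h := (isClosed_pos c).mem_of_tendsto hlim hzpos
  obtain ⟨K, _, _, Ψ, θ, m, w, σ, hw, hK, hΨ, hθ, hσr, hσ⟩ :=
    block_core h hh B hB he I hI0 hI1 q hq hprim c hcpos hpos
  have hiso := isolate hw (by rw [hK]; exact he) h hh σ hσr hσ c hcpos z hlim hzpos
  obtain ⟨n, hn1, hn2⟩ := (hiso.and hev).exists
  have hunit : IsUnit h.det := isUnit_iff_ne_zero.2 hh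
  have hzn0 : (z n).det ≠ 0 := by
    intro h0
    rw [h0, abs_zero] at hn2
    linarith
  have hD0 : ∀ i, D n i ≠ 0 := by
    intro i hi
    apply hzn0
    rw [← abs_eq_zero, hzdet, Finset.prod_eq_zero (Finset.mem_univ i) hi, abs_zero, zero_mul]
  set μ : Fin d → ℝ := fun i => (σ i θ).re with hμ
  have hBim : (Ψ θ).map (Rat.cast : ℚ → ℝ) = im B := by
    rw [hΨ, ← rm_eq]
    rfl
  have hrow : ∀ l, Matrix.vecMul (h l) (im B) = μ l • h l := fun l => by
    rw [← hBim]
    exact eigen_row hw (hσr l) (hσ l) θ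
  have hH : h * im B = Matrix.diagonal μ * h := by
    ext a b
    rw [Matrix.diagonal_mul]
    exact congr_fun (hrow a) b
  have hzrow : ∀ i, Matrix.vecMul (z n i) (im B) = μ i • z n i := by
    intro i
    have h1 : z n i = Matrix.vecMul ((z n * h⁻¹) i) h := by
      have h2 : z n * h⁻¹ * h = z n := by
        rw [Matrix.mul_assoc, Matrix.nonsing_inv_mul _ hunit, Matrix.mul_one]
      calc z n i = (z n * h⁻¹ * h) i := by rw [h2]
        _ = _ := rfl
    have h3 : Matrix.vecMul ((z n * h⁻¹) i) (Matrix.diagonal μ) = μ i • (z n * h⁻¹) i := by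
      funext l
      rw [Matrix.vecMul_diagonal, Pi.smul_apply, smul_eq_mul]
      by_cases hl : σ i = σ l
      · have h4 : μ l = μ i := by simp only [hμ, hl]
        rw [h4, mul_comm]
      · rw [hn1 i l hl, zero_mul, mul_zero]
    rw [h1, Matrix.vecMul_vecMul, hH, ← Matrix.vecMul_vecMul, h3, Matrix.smul_vecMul]
  refine ⟨U n, μ, fun i => ?_, fun hdeg => ?_⟩
  · have h1 := eigen_transport hzrow (fun i => (D n i)⁻¹) ((U n)⁻¹) i
    have h2 : Matrix.diagonal (fun i => (D n i)⁻¹) * z n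
        * im (((U n)⁻¹ : (Matrix (Fin d) (Fin d) ℤ)ˣ) : Matrix (Fin d) (Fin d) ℤ) = g := by
      have h3 : im (U n : Matrix (Fin d) (Fin d) ℤ)
          * im (((U n)⁻¹ : (Matrix (Fin d) (Fin d) ℤ)ˣ) : Matrix (Fin d) (Fin d) ℤ) = 1 := by
        rw [← im_mul, Units.mul_inv, im_one]
      have h4 : Matrix.diagonal (fun i => (D n i)⁻¹) * Matrix.diagonal (D n)
          = (1 : Matrix (Fin d) (Fin d) ℝ) := by
        rw [Matrix.diagonal_mul_diagonal, ← Matrix.diagonal_one]
        congr 1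
        funext i
        exact inv_mul_cancel₀ (hD0 i)
      simp only [hz]
      calc Matrix.diagonal (fun i => (D n i)⁻¹) * (Matrix.diagonal (D n) * g
              * im (U n : Matrix (Fin d) (Fin d) ℤ))
            * im (((U n)⁻¹ : (Matrix (Fin d) (Fin d) ℤ)ˣ) : Matrix (Fin d) (Fin d) ℤ)
          = (Matrix.diagonal (fun i => (D n i)⁻¹) * Matrix.diagonal (D n)) * (g
              * (im (U n : Matrix (Fin d) (Fin d) ℤ)
            * im (((U n)⁻¹ : (Matrix (Fin d) (Fin d) ℤ)ˣ) : Matrix (Fin d) (Fin d) ℤ))) := by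
            simp only [Matrix.mul_assoc]
        _ = g := by rw [h3, h4, Matrix.one_mul, Matrix.mul_one]
    rw [h2, inv_inv] at h1
    exact h1
  · intro i j hij
    have hσij : σ i = σ j := by
      have him : ∀ l, ((μ l : ℝ) : ℂ) = σ l θ := by
        intro l
        have h1 : (starRingEnd ℂ) (σ l θ) = σ l θ := by
          rw [← ComplexEmbedding.conjugate_coe_eq, hσr]
        exact Complex.conj_eq_iff_re.mp h1
      have h1 : σ i θ = σ j θ := by rw [← him, ← him, hij]
      ext x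
      obtain ⟨p, rfl⟩ := hθ x
      have h2 : ∀ l, σ l (aeval θ p) = aeval (σ l θ) p := by
        intro l
        exact (aeval_algHom_apply (σ l).toRatAlgHom θ p).symm
      rw [h2, h2, h1]
    by_contra hne
    have hcard := card_le_supp Ψ hw h hh {i, j} {σ i} (by
      intro l hl φ hφ
      rw [Finset.mem_singleton]
      by_contra hcon
      obtain ⟨k, hk⟩ := mem_supp.mp hφ
      apply hk
      apply hσ l k φ
      rw [Finset.mem_insert, Finset.mem_singleton] at hl
      rcases hl with rfl | rfl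
      · exact hcon
      · rw [← hσij]
        exact hcon)
    rw [Finset.card_pair hne, Finset.card_singleton, mul_one] at hcard
    have hdim := hw.dim
    rw [hK, hdeg] at hdim
    have hd3 : 3 ≤ d := by rw [← hdeg]; exact he
    have : 2 * d ≤ m * d := Nat.mul_le_mul_right d hcard
    omega

end Pool.Agent.H66.FR
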