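import Pool.Agent.H89.CSD.Iso

/-!
# Conjugating small displacements by powers of a diagonal matrix
-/

set_option autoImplicit false

namespace Pool.Agent.H66.FR

open Matrix Filter Topology Pool.Agent.H89.CSD

variable {d : ℕ}

/-- The sum of the absolute values of the growing entries. -/
noncomputable def grow (η : Fin d → ℝ) (E : Matrix (Fin d) (Fin d) ℝ) : ℝ :=
  ∑ i, ∑ j, if |η i| < |η j| then |E i j| else 0

/-- Conjugation by the `k`-th power of the diagonal matrix `η`. -/
noncomputable def cj (η : Fin d → ℝ) (k : ℕ) (E : Matrix (Fin d) (Fin d) ℝ) :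
    Matrix (Fin d) (Fin d) ℝ := diagonal (fun i => (η i ^ k)⁻¹) * E * diagonal (fun i => η i ^ k)

theorem cj_apply (η : Fin d → ℝ) (k : ℕ) (E : Matrix (Fin d) (Fin d) ℝ) (i j : Fin d) :
    cj η k E i j = (η i ^ k)⁻¹ * E i j * η j ^ k := by
  unfold cj
  rw [Matrix.mul_diagonal, Matrix.diagonal_mul]

theorem abs_cj (η : Fin d → ℝ) (k : ℕ) (E : Matrix (Fin d) (Fin d) ℝ) (i j : Fin d) :
    |cj η k E i j| = |E i j| * (|η j| / |η i|) ^ k := by
  rw [cj_apply, abs_mul, abs_mul, abs_inv, abs_pow, abs_pow, div_pow]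
  ring

theorem abs_entry_le_grow (η : Fin d → ℝ) (E : Matrix (Fin d) (Fin d) ℝ) (i j : Fin d)
    (h : |η i| < |η j|) : |E i j| ≤ grow η E := by
  unfold grow
  have hnn : ∀ i j, 0 ≤ (if |η i| < |η j| then |E i j| else 0) := by
    intro i j
    split_ifs
    · exact abs_nonneg _
    · exact le_rfl
  calc |E i j| = (if |η i| < |η j| then |E i j| else 0) := by rw [if_pos h]
    _ ≤ ∑ j, (if |η i| < |η j| then |E i j| else 0) :=
        Finset.single_le_sum (f := fun j => if |η i| < |η j| then |E i j| else 0)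
          (fun j _ => hnn i j) (Finset.mem_univ j)
    _ ≤ _ := Finset.single_le_sum (f := fun i => ∑ j, if |η i| < |η j| then |E i j| else 0)
          (fun i _ => Finset.sum_nonneg fun j _ => hnn i j) (Finset.mem_univ i)

theorem grow_cj_succ (η : Fin d → ℝ) (R : ℝ) (hR : ∀ i j, |η j| / |η i| ≤ R)
    (k : ℕ) (E : Matrix (Fin d) (Fin d) ℝ) : grow η (cj η (k + 1) E) ≤ R * grow η (cj η k E) := by
  unfold grow
  rw [Finset.mul_sum]
  apply Finset.sum_le_sum
  intro i _
  rw [Finset.mul_sum]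
  apply Finset.sum_le_sum
  intro j _
  split_ifs with h
  · rw [abs_cj, abs_cj, pow_succ]
    have h1 : 0 ≤ |E i j| * (|η j| / |η i|) ^ k := by positivity
    calc |E i j| * ((|η j| / |η i|) ^ k * (|η j| / |η i|))
        = (|η j| / |η i|) * (|E i j| * (|η j| / |η i|) ^ k) := by ring
      _ ≤ R * (|E i j| * (|η j| / |η i|) ^ k) := mul_le_mul_of_nonneg_right (hR i j) h1
  · rw [mul_zero]

theorem continuous_grow (η : Fin d → ℝ) :
    Continuous (fun E : Matrix (Fin d) (Fin d) ℝ => grow η E) := by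
  unfold grow
  refine continuous_finsetSum _ fun i _ => continuous_finsetSum _ fun j _ => ?_
  split_ifs
  · exact (continuous_id.matrix_elem i j).abs
  · exact continuous_const

theorem grow_zero (η : Fin d → ℝ) : grow η 0 = 0 := by
  simp [grow]

theorem cj_zero (η : Fin d → ℝ) (E : Matrix (Fin d) (Fin d) ℝ) : cj η 0 E = E := by
  ext i j
  rw [cj_apply]
  simp

theorem shear_limit {c c' : ℝ} (h H : Matrix (Fin d) (Fin d) ℝ) (hh : h.det ≠ 0)
    (η : Fin d → ℝ) (hη : ∀ i, η i ≠ 0) (hH : h * H = diagonal η * h)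
    (hpos : ∀ (k : ℕ) (g : Matrix (Fin d) (Fin d) ℝ), Pos c g →
      Pos c' (diagonal (fun i => (η i ^ k)⁻¹) * g * H ^ k))
    (z : ℕ → Matrix (Fin d) (Fin d) ℝ) (hz : Tendsto z atTop (𝓝 h)) (hzp : ∀ n, Pos c (z n))
    (i0 j0 : Fin d) (h0 : |η i0| < |η j0|) (hne : ∀ n, (z n * h⁻¹) i0 j0 ≠ 0) :
    ∃ W : Matrix (Fin d) (Fin d) ℝ, (∃ i j, W i j ≠ 0) ∧ (∀ i j, W i j ≠ 0 → |η i| < |η j|) ∧
      (1 + W).det = 1 ∧ Pos c' ((1 + W) * h) := by
  classical
  have hunit : IsUnit h.det := isUnit_iff_ne_zero.2 hh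
  have hij0 : i0 ≠ j0 := by
    rintro rfl
    exact lt_irrefl _ h0
  set E : ℕ → Matrix (Fin d) (Fin d) ℝ := fun n => z n * h⁻¹ - 1 with hE
  have hEz : ∀ n, (1 + E n) * h = z n := by
    intro n
    simp only [hE]
    rw [add_sub_cancel, Matrix.mul_assoc, Matrix.nonsing_inv_mul _ hunit, Matrix.mul_one]
  have hElim : Tendsto E atTop (𝓝 0) := by
    have h1 := (hz.mul (tendsto_const_nhds (x := h⁻¹))).sub
      (tendsto_const_nhds (x := (1 : Matrix (Fin d) (Fin d) ℝ)))
    rwa [Matrix.mul_nonsing_inv _ hunit, sub_self] at h1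
  have hE0 : ∀ n, E n i0 j0 ≠ 0 := by
    intro n
    simp only [hE, Matrix.sub_apply, Matrix.one_apply_ne hij0, sub_zero]
    exact hne n
  have hentry : ∀ i j, Tendsto (fun n => |E n i j|) atTop (𝓝 0) := by
    intro i j
    have h1 : Tendsto (fun n => |E n i j|) atTop (𝓝 |(0 : Matrix (Fin d) (Fin d) ℝ) i j|) :=
      (((continuous_id.matrix_elem i j).tendsto (0 : Matrix (Fin d) (Fin d) ℝ)).comp hElim).abs
    rwa [Matrix.zero_apply, abs_zero] at h1
  -- a bound for the ratios
  obtain ⟨R, hR0, hR⟩ : ∃ R : ℝ, 0 ≤ R ∧ ∀ i j, |η j| / |η i| ≤ R := by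
    refine ⟨∑ i, ∑ j, |η j| / |η i|, by positivity, fun i j => ?_⟩
    calc |η j| / |η i| ≤ ∑ j, |η j| / |η i| :=
          Finset.single_le_sum (f := fun j => |η j| / |η i|) (fun j _ => by positivity)
            (Finset.mem_univ j)
      _ ≤ _ := Finset.single_le_sum (f := fun i => ∑ j, |η j| / |η i|)
            (fun i _ => by positivity) (Finset.mem_univ i)
  -- the times
  have hex : ∀ n, ∃ k, 1 ≤ grow η (cj η k (E n)) := by
    intro n
    have hpos0 : 0 < |η i0| := abs_pos.mpr (hη i0)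
    have hr : 1 < |η j0| / |η i0| := (one_lt_div hpos0).mpr h0
    have hE1 : 0 < |E n i0 j0| := abs_pos.mpr (hE0 n)
    obtain ⟨k, hk⟩ := pow_unbounded_of_one_lt (|E n i0 j0|⁻¹) hr
    refine ⟨k, le_trans ?_ (abs_entry_le_grow η _ i0 j0 h0)⟩
    rw [abs_cj]
    calc (1 : ℝ) = |E n i0 j0| * |E n i0 j0|⁻¹ := (mul_inv_cancel₀ hE1.ne').symm
      _ ≤ _ := mul_le_mul_of_nonneg_left hk.le hE1.le
  let kk : ℕ → ℕ := fun n => Nat.find (hex n)
  have hkk1 : ∀ n, 1 ≤ grow η (cj η (kk n) (E n)) := fun n => Nat.find_spec (hex n)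
  have hgE : Tendsto (fun n => grow η (E n)) atTop (𝓝 0) := by
    have h1 := ((continuous_grow η).tendsto 0).comp hElim
    rwa [grow_zero] at h1
  have hkk2 : ∀ n, grow η (cj η (kk n) (E n)) ≤ R + grow η (E n) := by
    intro n
    have hnn : 0 ≤ grow η (E n) := by
      unfold grow
      apply Finset.sum_nonneg
      intro i _
      apply Finset.sum_nonneg
      intro j _
      split_ifs
      · exact abs_nonneg _
      · exact le_rfl
    rcases Nat.eq_zero_or_pos (kk n) with h1 | h1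
    · rw [h1, cj_zero]
      linarith
    · obtain ⟨k, hk⟩ : ∃ k, kk n = k + 1 := ⟨kk n - 1, by omega⟩
      have h2 : ¬ 1 ≤ grow η (cj η k (E n)) := Nat.find_min (hex n) (by
        have : kk n = Nat.find (hex n) := rfl
        omega)
      rw [hk]
      calc grow η (cj η (k + 1) (E n)) ≤ R * grow η (cj η k (E n)) := grow_cj_succ η R hR k _
        _ ≤ R * 1 := mul_le_mul_of_nonneg_left (not_le.mp h2).le hR0
        _ ≤ _ := by linarith
  have hsmall : ∀ i j, ¬ |η i| < |η j| → ∀ n, |cj η (kk n) (E n) i j| ≤ |E n i j| := by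
    intro i j hij n
    rw [abs_cj]
    have hpos0 : 0 < |η i| := abs_pos.mpr (hη i)
    have h1 : |η j| / |η i| ≤ 1 := (div_le_one hpos0).mpr (not_lt.mp hij)
    have h2 : (|η j| / |η i|) ^ (kk n) ≤ 1 := pow_le_one₀ (by positivity) h1
    calc |E n i j| * (|η j| / |η i|) ^ (kk n) ≤ |E n i j| * 1 :=
          mul_le_mul_of_nonneg_left h2 (abs_nonneg _)
      _ = _ := mul_one _
  -- boundedness
  obtain ⟨C1, hC1⟩ := hgE.bddAbove_range
  have hbd : ∃ C : ℝ, ∀ n i j, |cj η (kk n) (E n) i j| ≤ C := by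
    have h1 : ∀ i j, ∃ C, ∀ n, |cj η (kk n) (E n) i j| ≤ C := by
      intro i j
      by_cases hij : |η i| < |η j|
      · refine ⟨R + C1, fun n => ?_⟩
        calc |cj η (kk n) (E n) i j| ≤ grow η (cj η (kk n) (E n)) := abs_entry_le_grow η _ i j hij
          _ ≤ R + grow η (E n) := hkk2 n
          _ ≤ _ := by
            have := hC1 (Set.mem_range_self n)
            linarith
      · obtain ⟨C2, hC2⟩ := (hentry i j).bddAbove_range
        exact ⟨C2, fun n => le_trans (hsmall i j hij n) (hC2 (Set.mem_range_self n))⟩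
    choose C hC using h1
    refine ⟨∑ i, ∑ j, |C i j|, fun n i j => ?_⟩
    calc |cj η (kk n) (E n) i j| ≤ C i j := hC i j n
      _ ≤ |C i j| := le_abs_self _
      _ ≤ ∑ j, |C i j| := Finset.single_le_sum (f := fun j => |C i j|) (fun j _ => abs_nonneg _)
            (Finset.mem_univ j)
      _ ≤ _ := Finset.single_le_sum (f := fun i => ∑ j, |C i j|)
            (fun i _ => by positivity) (Finset.mem_univ i)
  obtain ⟨C, hC⟩ := hbd
  have hdetE : ∀ n, (1 + cj η (kk n) (E n)).det = (1 + E n).det := by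
    intro n
    have h1 : (1 : Matrix (Fin d) (Fin d) ℝ) + cj η (kk n) (E n) = cj η (kk n) (1 + E n) := by
      unfold cj
      rw [Matrix.mul_add, Matrix.add_mul, Matrix.mul_one, Matrix.diagonal_mul_diagonal]
      congr 1
      rw [← Matrix.diagonal_one]
      congr 1
      funext i
      rw [inv_mul_cancel₀ (pow_ne_zero _ (hη i))]
    rw [h1]
    unfold cj
    rw [Matrix.det_mul, Matrix.det_mul, Matrix.det_diagonal, Matrix.det_diagonal]
    have h2 : (∏ i, (η i ^ kk n)⁻¹) * ∏ i, η i ^ kk n = 1 := by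
      rw [← Finset.prod_mul_distrib]
      apply Finset.prod_eq_one
      intro i _
      exact inv_mul_cancel₀ (pow_ne_zero _ (hη i))
    calc (∏ i, (η i ^ kk n)⁻¹) * (1 + E n).det * ∏ i, η i ^ kk n
        = ((∏ i, (η i ^ kk n)⁻¹) * ∏ i, η i ^ kk n) * (1 + E n).det := by ring
      _ = _ := by rw [h2, one_mul]
  -- compactness
  have hcomp : IsCompact {M : Matrix (Fin d) (Fin d) ℝ | ∀ i j, |M i j| ≤ C} := by
    have : {M : Matrix (Fin d) (Fin d) ℝ | ∀ i j, |M i j| ≤ C} =
        Set.pi Set.univ fun _ : Fin d => Set.pi Set.univ fun _ : Fin d => Set.Icc (-C) C := by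
      ext M
      constructor
      · intro h i _ j _
        exact abs_le.1 (h i j)
      · intro h i j
        exact abs_le.2 (h i (Set.mem_univ i) j (Set.mem_univ j))
    rw [this]
    exact isCompact_univ_pi fun i => isCompact_univ_pi fun j => isCompact_Icc
  obtain ⟨W, -, φ, hφ, hlim⟩ := hcomp.tendsto_subseq (x := fun n => cj η (kk n) (E n))
    (fun n => hC n)
  have hEφ : Tendsto (E ∘ φ) atTop (𝓝 0) := hElim.comp hφ.tendsto_atTop
  refine ⟨W, ?_, ?_, ?_, ?_⟩
  · by_contra hcon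
    push Not at hcon
    have hW0 : W = 0 := by
      ext i j
      exact hcon i j
    have h1 := ((continuous_grow η).tendsto W).comp hlim
    rw [hW0, grow_zero] at h1
    have h2 : (1 : ℝ) ≤ 0 := ge_of_tendsto h1 (Eventually.of_forall fun n => hkk1 (φ n))
    linarith
  · intro i j hW
    by_contra hcon
    apply hW
    have h1 : Tendsto (fun n => |cj η (kk (φ n)) (E (φ n)) i j|) atTop (𝓝 |W i j|) :=
      (((continuous_id.matrix_elem i j).tendsto W).comp hlim).abs
    have h2 : Tendsto (fun n => |cj η (kk (φ n)) (E (φ n)) i j|) atTop (𝓝 0) :=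
      squeeze_zero (fun n => abs_nonneg _) (fun n => hsmall i j hcon (φ n))
        ((hentry i j).comp hφ.tendsto_atTop)
    exact abs_eq_zero.mp (tendsto_nhds_unique h1 h2)
  · have h1 : Tendsto (fun n => (1 + cj η (kk (φ n)) (E (φ n))).det) atTop (𝓝 (1 + W).det) :=
      (continuous_det'.tendsto (1 + W)).comp (hlim.const_add 1)
    have h2 : Tendsto (fun n => (1 + E (φ n)).det) atTop
        (𝓝 ((1 : Matrix (Fin d) (Fin d) ℝ) + 0).det) :=
      (continuous_det'.tendsto _).comp (hEφ.const_add 1)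
    simp only [hdetE] at h1
    rw [add_zero, Matrix.det_one] at h2
    exact tendsto_nhds_unique h1 h2
  · have h1 : Tendsto (fun n => (1 + cj η (kk (φ n)) (E (φ n))) * h) atTop (𝓝 ((1 + W) * h)) :=
      (hlim.const_add 1).mul tendsto_const_nhds
    refine Pos.of_tendsto h1 (fun n => ?_)
    have h2 := hpos (kk (φ n)) (z (φ n)) (hzp (φ n))
    have h3 : ∀ k, h * H ^ k = diagonal (fun i => η i ^ k) * h := by
      intro k
      induction k with
      | zero => simp
      | succ k ih =>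
        rw [pow_succ, ← Matrix.mul_assoc, ih, Matrix.mul_assoc, hH, ← Matrix.mul_assoc,
          Matrix.diagonal_mul_diagonal]
        congr 1
    have h4 : (1 + cj η (kk (φ n)) (E (φ n))) * h
        = diagonal (fun i => (η i ^ kk (φ n))⁻¹) * z (φ n) * H ^ kk (φ n) := by
      have h5 : (1 : Matrix (Fin d) (Fin d) ℝ) + cj η (kk (φ n)) (E (φ n))
          = cj η (kk (φ n)) (1 + E (φ n)) := by
        unfold cj
        rw [Matrix.mul_add, Matrix.add_mul, Matrix.mul_one, Matrix.diagonal_mul_diagonal]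
        congr 1
        rw [← Matrix.diagonal_one]
        congr 1
        funext i
        rw [inv_mul_cancel₀ (pow_ne_zero _ (hη i))]
      rw [h5, ← hEz (φ n)]
      unfold cj
      simp only [Matrix.mul_assoc]
      rw [h3]
    rw [h4]
    exact h2

end Pool.Agent.H66.FR
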