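import Pool.Agent.H66.FR.UnitM
import Pool.Agent.H66.FR.ShearLim

/-!
# Isolation of products of forms defined over a field
-/

set_option autoImplicit false

namespace Pool.Agent.H66.FR

open Filter Topology NumberField Module Polynomial Pool.Agent.H46 Pool.Agent.H89.CSD

variable {K : Type*} [Field K] [NumberField K] {d m : ℕ}

theorem prim_singleton (σ : K →+* ℂ) : Prim ({σ} : Finset (K →+* ℂ)) := by
  intro u hu
  have htop : IntermediateField.adjoin ℚ {u} = ⊤ := by
    refine (Field.primitive_element_iff_algHom_eq_of_eval ℚ ℂ (fun x => IsAlgClosed.splits _) u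
      σ.toRatAlgHom).mpr ?_
    intro ψ hψ
    have h1 : (ψ : K →+* ℂ) ∈ ({σ} : Finset (K →+* ℂ)) :=
      hu σ (ψ : K →+* ℂ) hψ (Finset.mem_singleton_self σ)
    rw [Finset.mem_singleton] at h1
    ext x
    have := RingHom.congr_fun h1 x
    exact this.symm
  intro φ ψ hφψ
  have h1 : φ.toRatAlgHom = ψ.toRatAlgHom :=
    (Field.primitive_element_iff_algHom_eq_of_eval ℚ ℂ (fun x => IsAlgClosed.splits _) u
      φ.toRatAlgHom).mp htop ψ.toRatAlgHom hφψ
  exact RingHom.ext fun x => AlgHom.congr_fun h1 x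

omit [NumberField K] in
theorem norm_eq_abs_re {σ : K →+* ℂ} (hσ : ComplexEmbedding.conjugate σ = σ) (y : K) :
    ‖σ y‖ = |(σ y).re| := by
  have him : ((σ y).re : ℂ) = σ y := by
    have h1 : (starRingEnd ℂ) (σ y) = σ y := by
      rw [← ComplexEmbedding.conjugate_coe_eq, hσ]
    exact Complex.conj_eq_iff_re.mp h1
  rw [← him, Complex.norm_real, Complex.ofReal_re, Real.norm_eq_abs]

/-- Isolation. -/
theorem isolate {Ψ : K →ₐ[ℚ] Matrix (Fin d) (Fin d) ℚ} {w : Fin m → Fin d → ℚ}
    (hw : IsKBasis Ψ w) (he : 3 ≤ finrank ℚ K) (h : Matrix (Fin d) (Fin d) ℝ) (hh : h.det ≠ 0)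
    (σ : Fin d → (K →+* ℂ)) (hσr : ∀ i, ComplexEmbedding.conjugate (σ i) = σ i)
    (hσ : ∀ i k φ, φ ≠ σ i → cf Ψ (w k) (h i) φ = 0) (c : ℝ) (hc : 0 < c)
    (z : ℕ → Matrix (Fin d) (Fin d) ℝ) (hz : Tendsto z atTop (𝓝 h))
    (hzp : ∀ᶠ n in atTop, Pos c (z n)) :
    ∀ᶠ n in atTop, ∀ i j, σ i ≠ σ j → (z n * h⁻¹) i j = 0 := by
  classical
  rw [eventually_all]
  intro i
  rw [eventually_all]
  intro j
  by_cases hij : σ i = σ j
  · exact Eventually.of_forall fun n hn => absurd hij hn
  by_contra hcon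
  have hfreq : ∃ᶠ n in atTop, (z n * h⁻¹) i j ≠ 0 ∧ Pos c (z n) := by
    have h1 : ∃ᶠ n in atTop, ¬ (σ i ≠ σ j → (z n * h⁻¹) i j = 0) :=
      Filter.not_eventually.mp hcon
    refine (h1.and_eventually hzp).mono ?_
    rintro n ⟨h2, h3⟩
    refine ⟨fun h4 => h2 fun _ => h4, h3⟩
  obtain ⟨ψ, hψ, hψn⟩ := extraction_of_frequently_atTop hfreq
  obtain ⟨u, hu1, hu2⟩ := exists_big_unit (σ j) (σ i) (hσr j) hij
  set η : Fin d → ℝ := fun l => (σ l ((u : 𝓞 K) : K)).re with hηdef
  have hηabs : ∀ l, |η l| = ‖σ l ((u : 𝓞 K) : K)‖ := fun l => (norm_eq_abs_re (hσr l) _).symm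
  have hrow : ∀ l, Matrix.vecMul (h l) (rmat Ψ ((u : 𝓞 K) : K)) = η l • h l := fun l =>
    eigen_row hw (hσr l) (hσ l) _
  have hH : h * rmat Ψ ((u : 𝓞 K) : K) = Matrix.diagonal η * h := by
    ext a b
    rw [Matrix.diagonal_mul]
    exact congr_fun (hrow a) b
  obtain ⟨hη, ν, hν, hpos⟩ := pos_unit Ψ u h hh η hH
  have hbig : ∀ l, σ l = σ j → 1 < |η l| := by
    intro l hl
    rw [hηabs, hl]
    exact hu1
  have hsm : ∀ l, σ l ≠ σ j → |η l| < 1 := by
    intro l hl
    rw [hηabs]
    exact hu2 _ hl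
  obtain ⟨W, ⟨a, b, hab⟩, hWsupp, hWdet, hWpos⟩ := shear_limit (c := c) (c' := c * ν) h
    (rmat Ψ ((u : 𝓞 K) : K)) hh η hη hH (fun k g hg => hpos c k g hc hg) (fun n => z (ψ n))
    (hz.comp hψ.tendsto_atTop) (fun n => (hψn n).2) i j
    (lt_trans (hsm i hij) (hbig j rfl)) (fun n => (hψn n).1)
  set z' : Matrix (Fin d) (Fin d) ℝ := (1 + W) * h with hz'
  have hz'det : z'.det ≠ 0 := by
    rw [hz', Matrix.det_mul, hWdet, one_mul]
    exact hh
  set I : Finset (Fin d) := Finset.univ.filter fun l => σ l = σ j with hI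
  have hmemI : ∀ l, l ∈ I ↔ σ l = σ j := by
    intro l
    simp [hI]
  have hrowI : ∀ l ∈ I, z' l = h l := by
    intro l hl
    have h1 : ∀ p, W l p = 0 := by
      intro p
      by_contra hp
      have h2 := hWsupp l p hp
      have h3 := hbig l ((hmemI l).mp hl)
      by_cases h4 : σ p = σ j
      · have h5 : η p = η l := by
          simp only [hηdef, h4, (hmemI l).mp hl]
        rw [h5] at h2
        exact lt_irrefl _ h2
      · have := hsm p h4
        linarith
    funext q
    rw [hz', Matrix.mul_apply]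
    have h2 : ∀ p, (1 + W) l p = (1 : Matrix (Fin d) (Fin d) ℝ) l p := by
      intro p
      rw [Matrix.add_apply, h1 p, add_zero]
    simp only [h2]
    rw [← Matrix.mul_apply, Matrix.one_mul]
  have himg : z' '' (I : Set (Fin d)) = h '' (I : Set (Fin d)) :=
    Set.image_congr fun l hl => hrowI l hl
  have hunit : IsUnit h.det := isUnit_iff_ne_zero.2 hh
  have hspan : ∀ v : Fin d → ℝ, v ∈ Submodule.span ℝ (z' '' (I : Set (Fin d))) ↔
      ∀ k φ, φ ∉ ({σ j} : Finset (K →+* ℂ)) → cf Ψ (w k) v φ = 0 := by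
    intro v
    rw [himg]
    constructor
    · intro hv
      induction hv using Submodule.span_induction with
      | mem x hx =>
        obtain ⟨l, hl, rfl⟩ := hx
        intro k φ hφ
        rw [Finset.mem_singleton] at hφ
        apply hσ l k φ
        rw [(hmemI l).mp hl]
        exact hφ
      | zero =>
        intro k φ _
        rw [cf_zero]
        rfl
      | add x y _ _ hx hy =>
        intro k φ hφ
        rw [cf_add, Pi.add_apply, hx k φ hφ, hy k φ hφ, add_zero]
      | smul r x _ hx =>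
        intro k φ hφ
        rw [cf_smul, Pi.smul_apply, hx k φ hφ, smul_zero]
    · intro hv
      have h1 : Matrix.vecMul v (rmat Ψ ((u : 𝓞 K) : K)) = η j • v :=
        eigen_row hw (hσr j) (fun k φ hφ => hv k φ (by
          rw [Finset.mem_singleton]
          exact hφ)) _
      set e : Fin d → ℝ := Matrix.vecMul v h⁻¹ with he'
      have hve : Matrix.vecMul e h = v := by
        rw [he', Matrix.vecMul_vecMul, Matrix.nonsing_inv_mul _ hunit, Matrix.vecMul_one]
      have h2 : ∀ l, e l * η l = η j * e l := by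
        have h3 : Matrix.vecMul (Matrix.vecMul e (Matrix.diagonal η)) h = Matrix.vecMul (η j • e) h := by
          rw [Matrix.vecMul_vecMul, ← hH, ← Matrix.vecMul_vecMul, hve, h1, Matrix.smul_vecMul, hve]
        have h4 := congrArg (fun x => Matrix.vecMul x h⁻¹) h3
        simp only [Matrix.vecMul_vecMul, Matrix.mul_assoc, Matrix.mul_nonsing_inv _ hunit,
          Matrix.mul_one, Matrix.vecMul_one] at h4
        intro l
        have h5 := congr_fun h4 l
        rw [Matrix.vecMul_diagonal, Pi.smul_apply, smul_eq_mul] at h5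
        exact h5
      have h6 : ∀ l, l ∉ I → e l = 0 := by
        intro l hl
        have h7 := h2 l
        have h8 : e l * (η l - η j) = 0 := by linarith
        rcases mul_eq_zero.mp h8 with h9 | h9
        · exact h9
        · exfalso
          have h10 := hsm l (fun h => hl ((hmemI l).mpr h))
          have h11 := hbig j rfl
          rw [sub_eq_zero.mp h9] at h10
          linarith
      rw [← hve, Matrix.vecMul_eq_sum]
      apply Submodule.sum_mem
      intro l _
      by_cases hl : l ∈ I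
      · apply Submodule.smul_mem
        apply Submodule.subset_span
        exact ⟨l, hl, rfl⟩
      · rw [h6 l hl, zero_smul]
        exact Submodule.zero_mem _
  have hmain := main_m Ψ hw he z' hz'det I ⟨j, (hmemI j).mpr rfl⟩ (by
      intro hI1
      apply hij
      rw [← hmemI i, hI1]
      exact Finset.mem_univ i) {σ j} (by
      intro τ
      rw [Finset.mem_singleton, Finset.mem_singleton]
      constructor
      · rintro rfl
        exact hσr j
      · intro h1
        have h2 := congrArg ComplexEmbedding.conjugate h1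
        have h3 : ComplexEmbedding.conjugate (ComplexEmbedding.conjugate τ) = τ :=
          ComplexEmbedding.involutive_conjugate K τ
        rw [hσr, h3] at h2
        exact h2) hspan (prim_singleton (σ j)) (c * ν) (mul_pos hc hν) hWpos
  obtain ⟨τ, hτr, hτ⟩ := hmain a
  have heig : Matrix.vecMul (z' a) (rmat Ψ ((u : 𝓞 K) : K)) = (τ ((u : 𝓞 K) : K)).re • z' a :=
    eigen_row hw hτr hτ _
  have hza : z' a = Matrix.vecMul ((1 + W) a) h := rfl
  have h2 : ∀ l, (1 + W) a l * η l = (τ ((u : 𝓞 K) : K)).re * (1 + W) a l := by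
    have h3 : Matrix.vecMul (Matrix.vecMul ((1 + W) a) (Matrix.diagonal η)) h
        = Matrix.vecMul ((τ ((u : 𝓞 K) : K)).re • (1 + W) a) h := by
      rw [Matrix.vecMul_vecMul, ← hH, ← Matrix.vecMul_vecMul, ← hza, heig, Matrix.smul_vecMul,
        ← hza]
    have h4 := congrArg (fun x => Matrix.vecMul x h⁻¹) h3
    simp only [Matrix.vecMul_vecMul, Matrix.mul_assoc, Matrix.mul_nonsing_inv _ hunit,
      Matrix.mul_one, Matrix.vecMul_one] at h4
    intro l
    have h5 := congr_fun h4 l
    rw [Matrix.vecMul_diagonal, Pi.smul_apply, smul_eq_mul] at h5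
    exact h5
  have hWaa : W a a = 0 := by
    by_contra h3
    exact lt_irrefl _ (hWsupp a a h3)
  have hne : a ≠ b := by
    rintro rfl
    exact hab hWaa
  have e1 := h2 a
  rw [Matrix.add_apply, Matrix.one_apply_eq, hWaa, add_zero, one_mul, mul_one] at e1
  have e2 := h2 b
  rw [Matrix.add_apply, Matrix.one_apply_ne hne, zero_add, ← e1, mul_comm] at e2
  have e3 := mul_right_cancel₀ hab e2
  have e4 := hWsupp a b hab
  rw [e3] at e4
  exact lt_irrefl _ e4

end Pool.Agent.H66.FR
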