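import Pool.Agent.H46.MainK
import Pool.Agent.H66.FR.Coef

/-!
# The block theorem with multiplicities, in terms of embeddings
-/

set_option autoImplicit false

namespace Pool.Agent.H66.FR

open NumberField Module Polynomial Pool.Agent.H46 Pool.Agent.H46.Blk

variable {K : Type*} [Field K] [NumberField K] {d m : ℕ}

theorem exists_comb (c c' : Fin m → ℂ) (hc : ∃ k, c k ≠ 0) (hc' : ∃ k, c' k ≠ 0) :
    ∃ n : Fin m → ℚ, ∑ k, (n k : ℂ) * c k ≠ 0 ∧ ∑ k, (n k : ℂ) * c' k ≠ 0 := by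
  classical
  have hs : ∀ (f : Fin m → ℂ) (k : Fin m),
      ∑ l, ((Pi.single k 1 : Fin m → ℚ) l : ℂ) * f l = f k := by
    intro f k
    rw [Finset.sum_eq_single k]
    · simp
    · intro l _ hl
      simp [Pi.single_eq_of_ne hl]
    · intro h
      exact absurd (Finset.mem_univ k) h
  obtain ⟨k, hk⟩ := hc
  obtain ⟨k', hk'⟩ := hc'
  by_cases h1 : c' k = 0
  · by_cases h2 : c k' = 0
    · refine ⟨Pi.single k 1 + Pi.single k' 1, ?_, ?_⟩
      · simp only [Pi.add_apply, Rat.cast_add, add_mul, Finset.sum_add_distrib, hs, h2, add_zero]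
        exact hk
      · simp only [Pi.add_apply, Rat.cast_add, add_mul, Finset.sum_add_distrib, hs, h1, zero_add]
        exact hk'
    · exact ⟨Pi.single k' 1, by rw [hs]; exact h2, by rw [hs]; exact hk'⟩
  · exact ⟨Pi.single k 1, by rw [hs]; exact hk, by rw [hs]; exact h1⟩

theorem vecL_ne_zero (Ψ : K →ₐ[ℚ] Matrix (Fin d) (Fin d) ℚ) {u : Fin d → ℚ} (hu : u ≠ 0) {x : K}
    (hx : x ≠ 0) : vecL Ψ u x ≠ 0 := by
  intro h
  apply hu
  have h1 : vecL Ψ u (x⁻¹ * x) = 0 := by rw [vecL_mul, h, Matrix.mulVec_zero]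
  rw [inv_mul_cancel₀ hx, vecL_apply, map_one, Matrix.one_mulVec] at h1
  exact h1

/-- Lower bound for the product on a line over `K`. -/
theorem line_lower (Ψ : K →ₐ[ℚ] Matrix (Fin d) (Fin d) ℚ) (g : Matrix (Fin d) (Fin d) ℝ)
    (ε : ℝ) (hε : 0 < ε) (hlow : ∀ x : Fin d → ℤ, x ≠ 0 → ε ≤ |∏ i, ∑ j, g i j * (x j : ℝ)|)
    {u : Fin d → ℚ} (hu : u ≠ 0) :
    ∃ ν : ℝ, 0 < ν ∧ ∀ x : 𝓞 K, x ≠ 0 → ν ≤ ‖∏ i, lf K (cf Ψ u (g i)) (x : K)‖ := by
  obtain ⟨b, hb0, hb⟩ := common_denominator (vecL Ψ u)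
  have hbpos : (0 : ℝ) < |(b : ℝ)| := abs_pos.mpr (by exact_mod_cast hb0)
  refine ⟨ε / |(b : ℝ)| ^ d, by positivity, fun x hx => ?_⟩
  obtain ⟨z, hz⟩ := hb x
  have hzR : ∀ j, (z j : ℝ) = (b : ℝ) * ((vecL Ψ u (x : K) j : ℚ) : ℝ) := by
    intro j
    have := hz j
    exact_mod_cast this.symm
  have hz0 : z ≠ 0 := by
    intro h
    apply vecL_ne_zero Ψ hu (x := (x : K)) (by exact_mod_cast hx)
    funext j
    have h2 := hz j
    rw [h] at h2
    simpa [hb0] using h2
  have h1 := hlow z hz0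
  have h2 : ∏ i, ∑ j, g i j * (z j : ℝ) = (b : ℝ) ^ d * ∏ i, val Ψ u (g i) (x : K) := by
    have h3 : ∀ i, ∑ j, g i j * (z j : ℝ) = (b : ℝ) * val Ψ u (g i) (x : K) := by
      intro i
      simp only [val, Finset.mul_sum]
      apply Finset.sum_congr rfl
      intro j _
      rw [hzR]
      ring
    simp only [h3]
    rw [Finset.prod_mul_distrib, Finset.prod_const, Finset.card_univ, Fintype.card_fin]
  rw [h2, abs_mul, abs_pow] at h1
  rw [div_le_iff₀ (by positivity)]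
  simp only [lf_cf]
  rw [← Complex.ofReal_prod, Complex.norm_real, Real.norm_eq_abs, mul_comm]
  exact h1

open scoped Classical in
/-- The embeddings which occur in row `i`. -/
noncomputable def supp (Ψ : K →ₐ[ℚ] Matrix (Fin d) (Fin d) ℚ) (w : Fin m → Fin d → ℚ)
    (g : Matrix (Fin d) (Fin d) ℝ) (i : Fin d) : Finset (K →+* ℂ) :=
  Finset.univ.filter fun σ => ∃ k, cf Ψ (w k) (g i) σ ≠ 0

theorem mem_supp {Ψ : K →ₐ[ℚ] Matrix (Fin d) (Fin d) ℚ} {w : Fin m → Fin d → ℚ}
    {g : Matrix (Fin d) (Fin d) ℝ} {i : Fin d} {σ : K →+* ℂ} :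
    σ ∈ supp Ψ w g i ↔ ∃ k, cf Ψ (w k) (g i) σ ≠ 0 := by
  simp [supp]

theorem engine_vec (Ψ : K →ₐ[ℚ] Matrix (Fin d) (Fin d) ℚ) {w : Fin m → Fin d → ℚ}
    (hw : IsKBasis Ψ w) (g : Matrix (Fin d) (Fin d) ℝ)
    (ε : ℝ) (hε : 0 < ε) (hlow : ∀ x : Fin d → ℤ, x ≠ 0 → ε ≤ |∏ i, ∑ j, g i j * (x j : ℝ)|)
    (I : Finset (Fin d)) (S : Finset (K →+* ℂ)) (hcard : I.card = m * S.card) (hS0 : S.Nonempty)
    (hS1 : S ≠ Finset.univ) (hprim : Prim S) (hIS : ∀ i ∈ I, supp Ψ w g i ⊆ S)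
    (hSc : ∀ σ, σ ∈ S ↔ ComplexEmbedding.conjugate σ ∈ S) (i : Fin d) (σ τ : K →+* ℂ)
    (hσ : i ∈ I ↔ σ ∈ S) (hτ : i ∈ I ↔ τ ∈ S) (hσi : σ ∈ supp Ψ w g i) (hτi : τ ∈ supp Ψ w g i) :
    σ = τ := by
  classical
  obtain ⟨n, hn1, hn2⟩ := exists_comb (fun k => cf Ψ (w k) (g i) σ) (fun k => cf Ψ (w k) (g i) τ)
    (mem_supp.mp hσi) (mem_supp.mp hτi)
  set u : Fin d → ℚ := ∑ k, n k • w k with hu
  have hcf : ∀ i φ, cf Ψ u (g i) φ = ∑ k, (n k : ℂ) * cf Ψ (w k) (g i) φ := by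
    intro i φ
    rw [hu, cf_comb, Finset.sum_apply]
    apply Finset.sum_congr rfl
    intro k _
    rw [Pi.smul_apply, smul_eq_mul]
  have hu0 : u ≠ 0 := by
    intro h
    apply hn1
    rw [← hcf, h]
    have h1 : cf Ψ 0 (g i) = 0 := by
      apply lf_ext
      intro x
      rw [lf_cf]
      simp [val, vecL_apply, lf]
    rw [h1, Pi.zero_apply]
  obtain ⟨ν, hν0, hν⟩ := line_lower Ψ g ε hε hlow hu0
  refine engine_m (fun i => cf Ψ u (g i)) I S m ?_ hcard hS0 hS1 hprim ?_ hSc ?_ ν hν0 hν i σ τ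
    hσ hτ ?_ ?_
  · rw [Fintype.card_fin]
    exact hw.dim
  · intro j hj φ hφ
    rw [hcf]
    apply Finset.sum_eq_zero
    intro k _
    have h1 : cf Ψ (w k) (g j) φ = 0 := by
      by_contra hcon
      exact hφ (hIS j hj (mem_supp.mpr ⟨k, hcon⟩))
    rw [h1, mul_zero]
  · intro j x
    rw [lf_cf, Complex.ofReal_im]
  · rw [hcf]
    exact hn1
  · rw [hcf]
    exact hn2

theorem card_le_supp (Ψ : K →ₐ[ℚ] Matrix (Fin d) (Fin d) ℚ) {w : Fin m → Fin d → ℚ}
    (hw : IsKBasis Ψ w) (g : Matrix (Fin d) (Fin d) ℝ) (hg : g.det ≠ 0) (J : Finset (Fin d))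
    (R : Finset (K →+* ℂ)) (h : ∀ i ∈ J, supp Ψ w g i ⊆ R) : J.card ≤ m * R.card := by
  classical
  have h1 := card_le_of_supported (aa Ψ w g) (aa_indep hw g hg) J (Finset.univ ×ˢ R) (by
    intro i hi p hp
    by_contra hcon
    apply hp
    rw [Finset.mem_product]
    exact ⟨Finset.mem_univ _, h i hi (mem_supp.mpr ⟨p.1, hcon⟩)⟩)
  rwa [Finset.card_product, Finset.card_univ, Fintype.card_fin] at h1

/-- The number of forms in a block cut out by embeddings. -/
theorem card_block (Ψ : K →ₐ[ℚ] Matrix (Fin d) (Fin d) ℚ) {w : Fin m → Fin d → ℚ}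
    (hw : IsKBasis Ψ w) (g : Matrix (Fin d) (Fin d) ℝ) (hg : g.det ≠ 0) (I : Finset (Fin d))
    (S : Finset (K →+* ℂ)) (hSc : ∀ σ, σ ∈ S ↔ ComplexEmbedding.conjugate σ ∈ S)
    (hspan : ∀ v : Fin d → ℝ, v ∈ Submodule.span ℝ (g '' (I : Set (Fin d))) ↔
      ∀ k σ, σ ∉ S → cf Ψ (w k) v σ = 0) : I.card = m * S.card := by
  classical
  have hle : I.card ≤ m * S.card := card_le_supp Ψ hw g hg I S (by
    intro i hi σ hσ
    by_contra hcon
    obtain ⟨k, hk⟩ := mem_supp.mp hσ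
    exact hk ((hspan (g i)).mp (Submodule.subset_span ⟨i, hi, rfl⟩) k σ hcon))
  -- rows are real linearly independent
  have hgli : LinearIndependent ℝ (fun i => g i) := by
    have := Matrix.linearIndependent_rows_of_det_ne_zero hg
    exact this
  -- a real combination of rows outside `I` supported in `S` is trivial
  have hreal : ∀ r : Fin d → ℝ, (∀ i ∈ I, r i = 0) →
      (∀ k σ, σ ∉ S → cf Ψ (w k) (∑ i, r i • g i) σ = 0) → r = 0 := by
    intro r hr h
    have h1 := (hspan (∑ i, r i • g i)).mpr h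
    rw [Submodule.mem_span_image_finset_iff_exists_fun] at h1
    obtain ⟨c, hc⟩ := h1
    have h2 := Fintype.linearIndependent_iff.mp hgli
      (fun i => r i - if h : i ∈ I then c ⟨i, h⟩ else 0) (by
        simp only [sub_smul, Finset.sum_sub_distrib]
        rw [sub_eq_zero, ← hc]
        have h6 : ∑ i : I, c i • g i.1
            = ∑ i : I, (fun i : Fin d => (if h : i ∈ I then c ⟨i, h⟩ else 0) • g i) i.1 := by
          apply Finset.sum_congr rfl
          intro i _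
          simp only [dif_pos i.2]
        rw [h6, Finset.sum_coe_sort I
          (fun i : Fin d => (if h : i ∈ I then c ⟨i, h⟩ else 0) • g i)]
        apply Finset.sum_subset (Finset.subset_univ I)
        intro i _ hi
        rw [dif_neg hi, zero_smul])
    funext i
    by_cases hi : i ∈ I
    · exact hr i hi
    · have := h2 i
      simpa [dif_neg hi] using this
  have hcomb : ∀ (r : Fin d → ℝ) (k : Fin m) (σ : K →+* ℂ),
      cf Ψ (w k) (∑ i, r i • g i) σ = ∑ i, (r i : ℂ) * cf Ψ (w k) (g i) σ := by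
    intro r k σ
    have h1 : ∀ s : Finset (Fin d), cf Ψ (w k) (∑ i ∈ s, r i • g i)
        = ∑ i ∈ s, (r i : ℂ) • cf Ψ (w k) (g i) := by
      intro s
      induction s using Finset.induction_on with
      | empty => simp [cf_zero]
      | insert a s ha ih => rw [Finset.sum_insert ha, Finset.sum_insert ha, cf_add, cf_smul, ih]
    rw [h1, Finset.sum_apply]
    apply Finset.sum_congr rfl
    intro i _
    rw [Pi.smul_apply, smul_eq_mul]
  -- the restricted rows outside `I` are independent over `ℂ`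
  have hli : LinearIndependent ℂ (fun i : {i // i ∉ I} =>
      (fun p : Fin m × {σ : K →+* ℂ // σ ∉ S} => cf Ψ (w p.1) (g i.1) p.2.1)) := by
    rw [Fintype.linearIndependent_iff]
    intro c hc
    have e1 : ∀ k σ, σ ∉ S → ∑ i : {i // i ∉ I}, c i * cf Ψ (w k) (g i.1) σ = 0 := by
      intro k σ hσ
      have := congr_fun hc (k, ⟨σ, hσ⟩)
      simpa using this
    have e2 : ∀ k σ, σ ∉ S → ∑ i : {i // i ∉ I}, (starRingEnd ℂ) (c i) * cf Ψ (w k) (g i.1) σ = 0 := by
      intro k σ hσ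
      have h1 := e1 k (ComplexEmbedding.conjugate σ) (fun h => hσ ((hSc σ).mpr h))
      have h2 := congrArg (starRingEnd ℂ) h1
      rw [map_sum, map_zero] at h2
      rw [← h2]
      apply Finset.sum_congr rfl
      intro i _
      rw [map_mul, cf_conj, Complex.conj_conj]
    let ext : ({i // i ∉ I} → ℝ) → (Fin d → ℝ) := fun r i => if h : i ∉ I then r ⟨i, h⟩ else 0
    have hext : ∀ (r : {i // i ∉ I} → ℝ) (k : Fin m) (σ : K →+* ℂ),
        cf Ψ (w k) (∑ i, ext r i • g i) σ = ∑ i : {i // i ∉ I}, (r i : ℂ) * cf Ψ (w k) (g i.1) σ := by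
      intro r k σ
      rw [hcomb]
      have h1 : ∑ i : {i // i ∉ I}, (r i : ℂ) * cf Ψ (w k) (g i.1) σ
          = ∑ i : {i // i ∉ I}, (fun i : Fin d => ((ext r i : ℝ) : ℂ) * cf Ψ (w k) (g i) σ) i.1 := by
        apply Finset.sum_congr rfl
        intro i _
        simp only [ext, dif_pos i.2]
      rw [h1, ← Finset.sum_subtype (Finset.univ.filter fun i : Fin d => i ∉ I) (by simp)
        (fun i : Fin d => ((ext r i : ℝ) : ℂ) * cf Ψ (w k) (g i) σ)]
      symm
      apply Finset.sum_subset (Finset.filter_subset _ _)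
      intro i _ hi
      have h2 : i ∈ I := by simpa using hi
      simp [ext, h2]
    have hz : ∀ r : {i // i ∉ I} → ℝ,
        (∀ k σ, σ ∉ S → ∑ i : {i // i ∉ I}, (r i : ℂ) * cf Ψ (w k) (g i.1) σ = 0) → r = 0 := by
      intro r hr
      have h1 := hreal (ext r) (fun i hi => by simp [ext, hi]) (fun k σ hσ => by
        rw [hext]
        exact hr k σ hσ)
      funext i
      have h2 := congr_fun h1 i.1
      simpa [ext, i.2] using h2
    have hre := hz (fun i => (c i).re) (by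
      intro k σ hσ
      have h1 := e1 k σ hσ
      have h2 := e2 k σ hσ
      have h3 : ∑ i : {i // i ∉ I}, (((c i).re : ℝ) : ℂ) * cf Ψ (w k) (g i.1) σ
          = (∑ i : {i // i ∉ I}, c i * cf Ψ (w k) (g i.1) σ
            + ∑ i : {i // i ∉ I}, (starRingEnd ℂ) (c i) * cf Ψ (w k) (g i.1) σ) / 2 := by
        rw [← Finset.sum_add_distrib, Finset.sum_div]
        apply Finset.sum_congr rfl
        intro i _
        rw [Complex.re_eq_add_conj]
        ring
      rw [h3, h1, h2]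
      simp)
    have him := hz (fun i => (c i).im) (by
      intro k σ hσ
      have h1 := e1 k σ hσ
      have h2 := e2 k σ hσ
      have h3 : ∑ i : {i // i ∉ I}, (((c i).im : ℝ) : ℂ) * cf Ψ (w k) (g i.1) σ
          = (∑ i : {i // i ∉ I}, c i * cf Ψ (w k) (g i.1) σ
            - ∑ i : {i // i ∉ I}, (starRingEnd ℂ) (c i) * cf Ψ (w k) (g i.1) σ)
              / (2 * Complex.I) := by
        rw [← Finset.sum_sub_distrib, Finset.sum_div]
        apply Finset.sum_congr rfl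
        intro i _
        rw [Complex.im_eq_sub_conj]
        ring
      rw [h3, h1, h2]
      simp)
    intro i
    apply Complex.ext
    · exact congr_fun hre i
    · exact congr_fun him i
  have hge := hli.fintype_card_le_finrank
  rw [Module.finrank_fintype_fun_eq_card, Fintype.card_prod, Fintype.card_fin] at hge
  have c1 : Fintype.card {i : Fin d // i ∉ I} = d - I.card := by
    rw [Fintype.card_subtype_compl, Fintype.card_fin, Fintype.card_coe]
  have c2 : Fintype.card {σ : K →+* ℂ // σ ∉ S} = finrank ℚ K - S.card := by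
    rw [Fintype.card_subtype_compl, Embeddings.card K ℂ, Fintype.card_coe]
  rw [c1, c2, Nat.mul_sub, ← hw.dim] at hge
  have hId : I.card ≤ d := by
    have := Finset.card_le_univ I
    rwa [Fintype.card_fin] at this
  have hSe : m * S.card ≤ d := by
    rw [hw.dim]
    apply Nat.mul_le_mul_left
    rw [← Embeddings.card K ℂ]
    exact Finset.card_le_univ S
  omega

/-- The block theorem, in terms of embeddings: if some of the forms span the real points of a
primitive sum of eigenspaces, then every form belongs to a single embedding. -/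
theorem main_m (Ψ : K →ₐ[ℚ] Matrix (Fin d) (Fin d) ℚ) {w : Fin m → Fin d → ℚ}
    (hw : IsKBasis Ψ w) (he : 3 ≤ finrank ℚ K) (g : Matrix (Fin d) (Fin d) ℝ) (hg : g.det ≠ 0)
    (I : Finset (Fin d)) (hI0 : I.Nonempty) (hI1 : I ≠ Finset.univ)
    (S : Finset (K →+* ℂ)) (hSc : ∀ σ, σ ∈ S ↔ ComplexEmbedding.conjugate σ ∈ S)
    (hspan : ∀ v : Fin d → ℝ, v ∈ Submodule.span ℝ (g '' (I : Set (Fin d))) ↔
      ∀ k σ, σ ∉ S → cf Ψ (w k) v σ = 0) (hprim : Prim S)
    (ε : ℝ) (hε : 0 < ε) (hlow : ∀ x : Fin d → ℤ, x ≠ 0 → ε ≤ |∏ i, ∑ j, g i j * (x j : ℝ)|) :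
    ∀ i, ∃ σ : K →+* ℂ, ComplexEmbedding.conjugate σ = σ ∧
      ∀ k φ, φ ≠ σ → cf Ψ (w k) (g i) φ = 0 := by
  classical
  have hcard := card_block Ψ hw g hg I S hSc hspan
  have hm0 : m ≠ 0 := by
    rintro rfl
    rw [zero_mul, Finset.card_eq_zero] at hcard
    exact hI0.ne_empty hcard
  have hS0 : S.Nonempty := by
    rw [← Finset.card_pos]
    by_contra h
    have h1 : S.card = 0 := by omega
    rw [h1, mul_zero, Finset.card_eq_zero] at hcard
    exact hI0.ne_empty hcard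
  have hS1 : S ≠ Finset.univ := by
    intro h
    apply hI1
    rw [← Finset.card_eq_iff_eq_univ, hcard, h, Finset.card_univ, Embeddings.card K ℂ,
      Fintype.card_fin, hw.dim]
  have hne : ∀ i, (supp Ψ w g i).Nonempty := by
    intro i
    by_contra hcon
    rw [Finset.not_nonempty_iff_eq_empty] at hcon
    have h1 := card_le_supp Ψ hw g hg {i} ∅ (by
      intro j hj
      rw [Finset.mem_singleton] at hj
      rw [hj, hcon])
    simp at h1
  have hconj : ∀ i σ, σ ∈ supp Ψ w g i → ComplexEmbedding.conjugate σ ∈ supp Ψ w g i := by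
    intro i σ hσ
    obtain ⟨k, hk⟩ := mem_supp.mp hσ
    rw [mem_supp]
    refine ⟨k, ?_⟩
    rw [cf_conj]
    exact (_root_.map_ne_zero _).mpr hk
  have hpure := purity_m (supp Ψ w g) m hm0 (by rw [Fintype.card_fin]; exact hw.dim) he
    (fun J R h => card_le_supp Ψ hw g hg J R h) hconj
    (fun I S h1 h2 h3 h4 h5 h6 => engine_vec Ψ hw g ε hε hlow I S h1 h2 h3 h4 h5 h6)
    I S hcard hS0 hS1 hprim (by
      intro i hi σ hσ
      by_contra hcon
      obtain ⟨k, hk⟩ := mem_supp.mp hσ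
      exact hk ((hspan (g i)).mp (Submodule.subset_span ⟨i, hi, rfl⟩) k σ hcon)) hSc
  intro i
  obtain ⟨σ, hσ⟩ := hne i
  refine ⟨σ, hpure i _ _ (hconj i σ hσ) hσ, fun k φ hφ => ?_⟩
  by_contra hcon
  exact hφ (hpure i φ σ (mem_supp.mpr ⟨k, hcon⟩) hσ)

end Pool.Agent.H66.FR
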