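import Pool.Agent.H66.FR.Final

/-!
# Passing to the smallest field over which the block is defined
-/

set_option autoImplicit false

namespace Pool.Agent.H66.FR

open Filter Topology NumberField Module Polynomial Pool.Agent.H46 Pool.Agent.H89.CSD

variable {d : ℕ}

theorem minpoly_aeval (hd : 0 < d) (B : Matrix (Fin d) (Fin d) ℤ)
    (hB : Irreducible (minpoly ℚ (qm B))) (p : ℤ[X]) :
    Irreducible (minpoly ℚ (qm (aeval B p))) ∧
      (minpoly ℚ (qm (aeval B p))).natDegree ≤ (minpoly ℚ (qm B)).natDegree := by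
  obtain ⟨K, _, _, Ψ, θ, hK, hΨ, hθ⟩ := field_of_minpoly (qm B) hB
  have : Nonempty (Fin d) := ⟨⟨0, hd⟩⟩
  have h1 : qm (aeval B p) = Ψ (aeval θ (p.map (Int.castRingHom ℚ))) := by
    rw [qm_aeval, ← hΨ, aeval_algHom_apply]
  rw [h1, minpoly.algHom_eq Ψ Ψ.toRingHom.injective]
  refine ⟨minpoly.irreducible (Algebra.IsIntegral.isIntegral _), ?_⟩
  rw [← hK]
  exact minpoly.natDegree_le _

theorem field_rigidity_min (g : Matrix (Fin d) (Fin d) ℝ) (hg : g.det ≠ 0)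
    (B : Matrix (Fin d) (Fin d) ℤ) (hB : Irreducible (minpoly ℚ (qm B)))
    (D : ℕ → Fin d → ℝ) (U : ℕ → (Matrix (Fin d) (Fin d) ℤ)ˣ) (h : Matrix (Fin d) (Fin d) ℝ)
    (hh : h.det ≠ 0)
    (hlim : Tendsto (fun n => Matrix.diagonal (D n) * g * im (U n : Matrix (Fin d) (Fin d) ℤ)) atTop
      (𝓝 h))
    (I : Finset (Fin d)) (hI0 : I.Nonempty) (hI1 : I ≠ Finset.univ) (q : ℝ[X])
    (hq : ∀ v : Fin d → ℝ, v ∈ Submodule.span ℝ (h '' (I : Set (Fin d))) ↔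
      Matrix.vecMul v (aeval (rm B) q) = 0)
    (h3 : ∀ (p : ℤ[X]) (q' : ℝ[X]),
      (∀ v : Fin d → ℝ, v ∈ Submodule.span ℝ (h '' (I : Set (Fin d))) ↔
        Matrix.vecMul v (aeval (rm (aeval B p)) q') = 0) →
      3 ≤ (minpoly ℚ (qm (aeval B p))).natDegree)
    (ε : ℝ) (hε : 0 < ε) (hlow : ∀ x : Fin d → ℤ, x ≠ 0 → ε ≤ |∏ i, ∑ j, g i j * (x j : ℝ)|) :
    ∃ (p : ℤ[X]) (q' : ℝ[X]) (V : (Matrix (Fin d) (Fin d) ℤ)ˣ) (μ : Fin d → ℝ),
      (∀ v : Fin d → ℝ, v ∈ Submodule.span ℝ (h '' (I : Set (Fin d))) ↔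
        Matrix.vecMul v (aeval (rm (aeval B p)) q') = 0) ∧
      Irreducible (minpoly ℚ (qm (aeval B p))) ∧
      (∀ i, Matrix.vecMul (g i) (im ((V : Matrix (Fin d) (Fin d) ℤ) * aeval B p *
        ((V⁻¹ : (Matrix (Fin d) (Fin d) ℤ)ˣ) : Matrix (Fin d) (Fin d) ℤ))) = μ i • g i) ∧
      ((minpoly ℚ (qm (aeval B p))).natDegree = d → Function.Injective μ) := by
  classical
  have hd : 0 < d := by
    obtain ⟨i, -⟩ := hI0
    exact lt_of_le_of_lt (Nat.zero_le _) i.2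
  have hex : ∃ n : ℕ, ∃ (p : ℤ[X]) (q' : ℝ[X]),
      (∀ v : Fin d → ℝ, v ∈ Submodule.span ℝ (h '' (I : Set (Fin d))) ↔
        Matrix.vecMul v (aeval (rm (aeval B p)) q') = 0) ∧
      (minpoly ℚ (qm (aeval B p))).natDegree = n := by
    refine ⟨_, X, q, ?_, rfl⟩
    rw [aeval_X]
    exact hq
  obtain ⟨p, q', hpq, hn⟩ := Nat.find_spec hex
  obtain ⟨hirr, -⟩ := minpoly_aeval hd B hB p
  obtain ⟨V, μ, hV, hμ⟩ := field_rigidity g hg (aeval B p) hirr (h3 p q' hpq) D U h hh hlim I hI0 hI1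
    q' hpq (by
      intro p2 q2 h2
      apply le_antisymm
      · exact (minpoly_aeval hd (aeval B p) hirr p2).2
      · rw [hn]
        apply Nat.find_min' hex
        refine ⟨p2.comp p, q2, ?_, ?_⟩
        · rw [aeval_comp]
          exact h2
        · rw [aeval_comp]) ε hε hlow
  exact ⟨p, q', V, μ, hpq, hirr, hV, hμ⟩

end Pool.Agent.H66.FR
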