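import Pool.Agent.H66.FR.Block
import Pool.Agent.H89.CSD.Iso

/-!
# Units acting on products of linear forms
-/

set_option autoImplicit false

namespace Pool.Agent.H66.FR

open NumberField Module Polynomial Pool.Agent.H46 Pool.Agent.H89.CSD

variable {K : Type*} [Field K] [NumberField K] {d m : ℕ}

/-- A unit which is large at one real embedding and small at the others. -/
theorem exists_big_unit (σ τ : K →+* ℂ) (hσ : ComplexEmbedding.conjugate σ = σ) (hτ : τ ≠ σ) :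
    ∃ u : (𝓞 K)ˣ, 1 < ‖σ ((u : 𝓞 K) : K)‖ ∧
      ∀ φ : K →+* ℂ, φ ≠ σ → ‖φ ((u : 𝓞 K) : K)‖ < 1 := by
  classical
  obtain ⟨u, hu⟩ := Units.dirichletUnitTheorem.exists_unit K (InfinitePlace.mk σ)
  have hne : ∀ φ : K →+* ℂ, φ ≠ σ → InfinitePlace.mk φ ≠ InfinitePlace.mk σ := by
    intro φ hφ h
    rw [eq_comm, InfinitePlace.mk_eq_iff] at h
    rcases h with h | h
    · exact hφ h.symm
    · rw [hσ] at h
      exact hφ h.symm
  have hsmall : ∀ w : InfinitePlace K, w ≠ InfinitePlace.mk σ → Real.log (w ((u : 𝓞 K) : K)) < 0 :=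
    hu
  have hpos : ∀ w : InfinitePlace K, 0 < w ((u : 𝓞 K) : K) := by
    intro w
    rw [InfinitePlace.pos_iff]
    simp
  refine ⟨u, ?_, ?_⟩
  · have h1 := Units.sum_mult_mul_log u
    rw [← Finset.add_sum_erase _ _ (Finset.mem_univ (InfinitePlace.mk σ))] at h1
    have h2 : ∑ w ∈ Finset.univ.erase (InfinitePlace.mk σ),
        (w.mult : ℝ) * Real.log (w ((u : 𝓞 K) : K)) < 0 := by
      apply Finset.sum_neg
      · intro w hw
        apply mul_neg_of_pos_of_neg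
        · exact_mod_cast InfinitePlace.mult_pos
        · exact hsmall w (Finset.ne_of_mem_erase hw)
      · exact ⟨InfinitePlace.mk τ, Finset.mem_erase.mpr ⟨hne τ hτ, Finset.mem_univ _⟩⟩
    have h3 : 0 < ((InfinitePlace.mk σ).mult : ℝ) * Real.log ((InfinitePlace.mk σ) ((u : 𝓞 K) : K)) := by
      linarith
    have h4 : 0 < Real.log ((InfinitePlace.mk σ) ((u : 𝓞 K) : K)) := by
      have h5 : (0 : ℝ) < ((InfinitePlace.mk σ).mult : ℝ) := by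
        exact_mod_cast InfinitePlace.mult_pos
      exact (mul_pos_iff_of_pos_left h5).mp h3
    exact (Real.log_pos_iff (hpos _).le).mp h4
  · intro φ hφ
    have h1 := hsmall _ (hne φ hφ)
    by_contra hcon
    push Not at hcon
    exact absurd (Real.log_nonneg hcon) (not_le.mpr h1)

/-- Bounded denominators. -/
theorem denom (Ψ : K →ₐ[ℚ] Matrix (Fin d) (Fin d) ℚ) : ∃ N : ℤ, N ≠ 0 ∧ ∀ x : 𝓞 K,
    ∃ T : Matrix (Fin d) (Fin d) ℤ, ∀ i j, (N : ℚ) * Ψ (x : K) i j = (T i j : ℚ) := by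
  classical
  have h := fun j : Fin d => common_denominator (vecL Ψ (Pi.single j 1))
  choose b hb0 hb using h
  refine ⟨∏ j, b j, Finset.prod_ne_zero_iff.mpr (fun j _ => hb0 j), fun x => ?_⟩
  have h1 := fun j => hb j x
  choose z hz using h1
  refine ⟨Matrix.of fun i j => (∏ k ∈ Finset.univ.erase j, b k) * z j i, fun i j => ?_⟩
  have h2 : vecL Ψ (Pi.single j 1) (x : K) i = Ψ (x : K) i j := by
    rw [vecL_apply, Matrix.mulVec_single_one]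
    rfl
  have h3 := hz j i
  rw [h2] at h3
  rw [Matrix.of_apply, ← Finset.mul_prod_erase _ _ (Finset.mem_univ j)]
  push_cast
  rw [← h3]
  ring

/-- Scaling of a product of linear forms. -/
theorem P_smul (g : Matrix (Fin d) (Fin d) ℝ) (r : ℝ) (x : Fin d → ℝ) :
    P g (r • x) = r ^ d * P g x := by
  have h1 : ∀ i, ∑ j, g i j * (r • x) j = r * ∑ j, g i j * x j := by
    intro i
    rw [Finset.mul_sum]
    apply Finset.sum_congr rfl
    intro j _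
    rw [Pi.smul_apply, smul_eq_mul]
    ring
  simp only [P, h1]
  rw [Finset.prod_mul_distrib, Finset.prod_const, Finset.card_univ, Fintype.card_fin]

/-- The real matrix of `x`. -/
noncomputable abbrev rmat (Ψ : K →ₐ[ℚ] Matrix (Fin d) (Fin d) ℚ) (x : K) :
    Matrix (Fin d) (Fin d) ℝ := (Ψ x).map (Rat.cast : ℚ → ℝ)

theorem rmat_eq (Ψ : K →ₐ[ℚ] Matrix (Fin d) (Fin d) ℚ) (x : K) :
    rmat Ψ x = (Rat.castHom ℝ).mapMatrix (Ψ x) := rfl

theorem rmat_pow (Ψ : K →ₐ[ℚ] Matrix (Fin d) (Fin d) ℚ) (x : K) (k : ℕ) :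
    rmat Ψ (x ^ k) = rmat Ψ x ^ k := by
  rw [rmat_eq, rmat_eq, map_pow, map_pow]

theorem det_rmat (Ψ : K →ₐ[ℚ] Matrix (Fin d) (Fin d) ℚ) (x : K) :
    (rmat Ψ x).det = (((Ψ x).det : ℚ) : ℝ) := by
  rw [rmat_eq, ← RingHom.map_det]
  rfl

theorem det_psi_ne (Ψ : K →ₐ[ℚ] Matrix (Fin d) (Fin d) ℚ) {x : K} (hx : x ≠ 0) :
    (Ψ x).det ≠ 0 := by
  have h1 : Ψ x * Ψ x⁻¹ = 1 := by rw [← map_mul, mul_inv_cancel₀ hx, map_one]
  have h2 := congrArg Matrix.det h1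
  rw [Matrix.det_mul, Matrix.det_one] at h2
  intro h
  rw [h, zero_mul] at h2
  exact zero_ne_one h2

theorem det_ge {Ψ : K →ₐ[ℚ] Matrix (Fin d) (Fin d) ℚ} {N : ℤ}
    (hN : ∀ x : 𝓞 K, ∃ T : Matrix (Fin d) (Fin d) ℤ, ∀ i j, (N : ℚ) * Ψ (x : K) i j = (T i j : ℚ))
    (hN0 : N ≠ 0) (x : 𝓞 K) (hx : x ≠ 0) : 1 ≤ |(N : ℝ)| ^ d * |(rmat Ψ (x : K)).det| := by
  obtain ⟨T, hT⟩ := hN x
  have h1 : (N : ℚ) • Ψ (x : K) = T.map (Int.cast : ℤ → ℚ) := by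
    ext i j
    rw [Matrix.smul_apply, smul_eq_mul, hT, Matrix.map_apply]
  have h2 := congrArg Matrix.det h1
  rw [Matrix.det_smul, Fintype.card_fin] at h2
  have h3 : (T.map (Int.cast : ℤ → ℚ)).det = (T.det : ℚ) :=
    ((Int.castRingHom ℚ).map_det T).symm
  rw [h3] at h2
  have h4 : T.det ≠ 0 := by
    intro h
    rw [h] at h2
    have h5 := det_psi_ne Ψ (x := (x : K)) (by exact_mod_cast hx)
    have h6 : (N : ℚ) ^ d ≠ 0 := pow_ne_zero _ (by exact_mod_cast hN0)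
    exact (mul_ne_zero h6 h5) (by rw [h2]; simp)
  have h7 : |(N : ℝ)| ^ d * |(rmat Ψ (x : K)).det| = |(T.det : ℝ)| := by
    rw [det_rmat, ← abs_pow, ← abs_mul]
    have h8 : ((N : ℝ) ^ d * (((Ψ (x : K)).det : ℚ) : ℝ)) = (T.det : ℝ) := by
      have h9 := congrArg (Rat.cast : ℚ → ℝ) h2
      rw [Rat.cast_mul, Rat.cast_pow, Rat.cast_intCast, Rat.cast_intCast] at h9
      exact h9
    rw [h8]
  rw [h7]
  exact_mod_cast Int.one_le_abs h4

/-- The determinant of a unit is `±1`. -/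
theorem abs_det_unit_eq_one (Ψ : K →ₐ[ℚ] Matrix (Fin d) (Fin d) ℚ) (u : (𝓞 K)ˣ) :
    |(rmat Ψ ((u : 𝓞 K) : K)).det| = 1 := by
  obtain ⟨N, hN0, hN⟩ := denom Ψ
  have hNpos : (0 : ℝ) < |(N : ℝ)| ^ d := by
    have : (0 : ℝ) < |(N : ℝ)| := abs_pos.mpr (by exact_mod_cast hN0)
    positivity
  have key : ∀ v : (𝓞 K)ˣ, 1 ≤ |(rmat Ψ ((v : 𝓞 K) : K)).det| := by
    intro v
    by_contra hcon
    push Not at hcon
    obtain ⟨n, hn⟩ := exists_pow_lt_of_lt_one (inv_pos.mpr hNpos) hcon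
    have h1 := det_ge hN hN0 ((v : 𝓞 K) ^ n) (pow_ne_zero _ (Units.ne_zero v))
    have h2 : (((v : 𝓞 K) ^ n : 𝓞 K) : K) = ((v : 𝓞 K) : K) ^ n := by push_cast; rfl
    rw [h2, rmat_pow, Matrix.det_pow, abs_pow] at h1
    have h3 : |(N : ℝ)| ^ d * |(rmat Ψ ((v : 𝓞 K) : K)).det| ^ n < 1 := by
      calc |(N : ℝ)| ^ d * |(rmat Ψ ((v : 𝓞 K) : K)).det| ^ n
          < |(N : ℝ)| ^ d * (|(N : ℝ)| ^ d)⁻¹ := mul_lt_mul_of_pos_left hn hNpos
        _ = 1 := mul_inv_cancel₀ hNpos.ne'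
    linarith
  have h1 := key u
  have h2 := key u⁻¹
  have h3 : rmat Ψ ((u : 𝓞 K) : K) * rmat Ψ (((u⁻¹ : (𝓞 K)ˣ) : 𝓞 K) : K) = 1 := by
    rw [rmat_eq, rmat_eq, ← map_mul, ← map_mul, ← map_mul, Units.mul_inv, map_one, map_one, map_one]
  have h4 := congrArg (fun M => |Matrix.det M|) h3
  simp only [Matrix.det_mul, Matrix.det_one, abs_one, abs_mul] at h4
  nlinarith

/-- The action of a unit on forms with a lower bound. -/
theorem pos_unit (Ψ : K →ₐ[ℚ] Matrix (Fin d) (Fin d) ℚ) (u : (𝓞 K)ˣ)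
    (h : Matrix (Fin d) (Fin d) ℝ) (hh : h.det ≠ 0) (η : Fin d → ℝ)
    (hH : h * rmat Ψ ((u : 𝓞 K) : K) = Matrix.diagonal η * h) :
    (∀ i, η i ≠ 0) ∧ ∃ ν : ℝ, 0 < ν ∧ ∀ (c : ℝ) (k : ℕ) (g : Matrix (Fin d) (Fin d) ℝ), 0 < c →
      Pos c g → Pos (c * ν)
        (Matrix.diagonal (fun i => (η i ^ k)⁻¹) * g * rmat Ψ ((u : 𝓞 K) : K) ^ k) := by
  have hdet : |∏ i, η i| = 1 := by
    have h1 := congrArg Matrix.det hH
    rw [Matrix.det_mul, Matrix.det_mul, Matrix.det_diagonal, mul_comm] at h1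
    have h2 := mul_right_cancel₀ hh h1
    rw [← h2]
    exact abs_det_unit_eq_one Ψ u
  have hη : ∀ i, η i ≠ 0 := by
    intro i hi
    rw [Finset.prod_eq_zero (Finset.mem_univ i) hi, abs_zero] at hdet
    exact zero_ne_one hdet
  obtain ⟨N, hN0, hN⟩ := denom Ψ
  have hNpos : (0 : ℝ) < |(N : ℝ)| ^ d := by
    have : (0 : ℝ) < |(N : ℝ)| := abs_pos.mpr (by exact_mod_cast hN0)
    positivity
  refine ⟨hη, (|(N : ℝ)| ^ d)⁻¹, inv_pos.mpr hNpos, fun c k g hc hg x hx => ?_⟩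
  obtain ⟨T, hT⟩ := hN ((u : 𝓞 K) ^ k)
  have h1 : (N : ℝ) • rmat Ψ ((u : 𝓞 K) : K) ^ k = im T := by
    rw [← rmat_pow]
    ext i j
    have h2 := hT i j
    have h3 : (((u : 𝓞 K) ^ k : 𝓞 K) : K) = ((u : 𝓞 K) : K) ^ k := by push_cast; rfl
    rw [h3] at h2
    have h4 : ((N : ℝ) • rmat Ψ (((u : 𝓞 K) : K) ^ k)) i j
        = (N : ℝ) * ((Ψ (((u : 𝓞 K) : K) ^ k) i j : ℚ) : ℝ) := rfl
    have h5 : im T i j = ((T i j : ℤ) : ℝ) := rfl
    rw [h4, h5]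
    have h9 := congrArg (Rat.cast : ℚ → ℝ) h2
    push_cast at h9
    exact h9
  have hTdet : T.det ≠ 0 := by
    intro h0
    have h2 := congrArg Matrix.det h1
    rw [Matrix.det_smul, det_im, h0, Matrix.det_pow] at h2
    have h3 : (rmat Ψ ((u : 𝓞 K) : K)).det ≠ 0 := by
      rw [← abs_ne_zero, abs_det_unit_eq_one]
      exact one_ne_zero
    have h4 : ((N : ℝ) ^ Fintype.card (Fin d)) ≠ 0 := pow_ne_zero _ (by exact_mod_cast hN0)
    exact (mul_ne_zero h4 (pow_ne_zero k h3)) (by rw [h2]; simp)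
  have hTx : T.mulVec x ≠ 0 := mulVec_ne hTdet hx
  have h5 := hg _ hTx
  rw [← im_mulVec, ← h1, Matrix.smul_mulVec, P_smul, abs_mul, abs_pow] at h5
  have h6 : |P (Matrix.diagonal (fun i => (η i ^ k)⁻¹) * g * rmat Ψ ((u : 𝓞 K) : K) ^ k) (ic x)|
      = |P g ((rmat Ψ ((u : 𝓞 K) : K) ^ k).mulVec (ic x))| := by
    rw [P_mul, P_diag_mul, abs_mul]
    have h7 : |∏ i, (η i ^ k)⁻¹| = 1 := by
      rw [Finset.prod_inv_distrib, Finset.prod_pow, abs_inv, abs_pow, hdet, one_pow, inv_one]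
    rw [h7, one_mul]
  rw [h6, ← div_eq_mul_inv, div_le_iff₀ hNpos, mul_comm]
  exact h5

end Pool.Agent.H66.FR
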